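import Pool.Agent.Helper78_E.Stmts

/-!
# MP_7d2497_an, module LINE: the Carleman transform is analytic off the spectrum
-/

namespace Pool.Agent.Helper15_E

open MeasureTheory Filter Topology Complex
open Pool.Agent.H78E

noncomputable section

/-! ### Weights -/

theorem weight_bound {φ : ℝ → ℝ} (hφ : IsWeight φ) {δ : ℝ} (hδ : 0 < δ) :
    ∃ C : ℝ, 0 < C ∧ ∀ t, φ t ≤ C * Real.exp (δ * |t|) := by
  have h1 : ∀ᶠ t : ℝ in atTop, Real.log (φ t) / t < δ := hφ.top.eventually_lt_const hδ
  have h2 : ∀ᶠ t : ℝ in atBot, -δ < Real.log (φ t) / t :=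
    hφ.bot.eventually_const_lt (by linarith)
  obtain ⟨T1, hT1⟩ := eventually_atTop.1 h1
  obtain ⟨T2, hT2⟩ := eventually_atBot.1 h2
  obtain ⟨T, hT⟩ : ∃ T : ℝ, T = max (max T1 (-T2)) 1 := ⟨_, rfl⟩
  have hTa : T1 ≤ T := by rw [hT]; exact (le_max_left _ _).trans (le_max_left _ _)
  have hTb : -T2 ≤ T := by rw [hT]; exact (le_max_right _ _).trans (le_max_left _ _)
  have hTc : 1 ≤ T := by rw [hT]; exact le_max_right _ _
  have pos : ∀ t, 0 < φ t := fun t => lt_of_lt_of_le one_pos (hφ.one_le t)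
  have up : ∀ t, T ≤ t → φ t ≤ Real.exp (δ * t) := by
    intro t ht
    have h3 := hT1 t (hTa.trans ht)
    have h4 : 0 < t := by linarith
    rw [div_lt_iff₀ h4] at h3
    rw [← Real.log_le_iff_le_exp (pos t)]
    exact h3.le
  have dn : ∀ t, t ≤ -T → φ t ≤ Real.exp (-(δ * t)) := by
    intro t ht
    have h3 := hT2 t (by linarith)
    have h4 : t < 0 := by linarith
    rw [lt_div_iff_of_neg h4] at h3
    rw [← Real.log_le_iff_le_exp (pos t)]
    linarith
  refine ⟨Real.exp (δ * T) * (φ T + φ (-T)), ?_, ?_⟩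
  · have := pos T
    have := pos (-T)
    positivity
  · intro t
    rcases le_total 0 t with h | h
    · rw [abs_of_nonneg h]
      have h3 := hφ.submul (t + T) (-T)
      rw [add_neg_cancel_right] at h3
      have h4 := up (t + T) (by linarith)
      calc φ t ≤ φ (t + T) * φ (-T) := h3
        _ ≤ Real.exp (δ * (t + T)) * φ (-T) := mul_le_mul_of_nonneg_right h4 (pos _).le
        _ = Real.exp (δ * T) * φ (-T) * Real.exp (δ * t) := by
            rw [mul_add, Real.exp_add]
            ring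
        _ ≤ Real.exp (δ * T) * (φ T + φ (-T)) * Real.exp (δ * t) := by
            apply mul_le_mul_of_nonneg_right _ (Real.exp_pos _).le
            apply mul_le_mul_of_nonneg_left _ (Real.exp_pos _).le
            linarith [pos T]
    · rw [abs_of_nonpos h]
      have h3 := hφ.submul (t - T) T
      rw [sub_add_cancel] at h3
      have h4 := dn (t - T) (by linarith)
      calc φ t ≤ φ (t - T) * φ T := h3
        _ ≤ Real.exp (-(δ * (t - T))) * φ T := mul_le_mul_of_nonneg_right h4 (pos _).le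
        _ = Real.exp (δ * T) * φ T * Real.exp (δ * -t) := by
            have : -(δ * (t - T)) = δ * T + δ * -t := by ring
            rw [this, Real.exp_add]
            ring
        _ ≤ Real.exp (δ * T) * (φ T + φ (-T)) * Real.exp (δ * -t) := by
            apply mul_le_mul_of_nonneg_right _ (Real.exp_pos _).le
            apply mul_le_mul_of_nonneg_left _ (Real.exp_pos _).le
            linarith [pos (-T)]

theorem integrable_exp_abs {ε : ℝ} (hε : 0 < ε) :
    Integrable (fun t : ℝ => Real.exp (-(ε * |t|))) := by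
  have h1 : IntegrableOn (fun t : ℝ => Real.exp (-(ε * |t|))) (Set.Ioi 0) := by
    have := exp_neg_integrableOn_Ioi (0 : ℝ) hε
    apply this.congr_fun _ measurableSet_Ioi
    intro t ht
    simp only
    rw [abs_of_pos ht, neg_mul]
  have h2 : IntegrableOn (fun t : ℝ => Real.exp (-(ε * |t|))) (Set.Iic 0) := by
    have := integrableOn_exp_mul_Iic hε 0
    apply this.congr_fun _ measurableSet_Iic
    intro t ht
    simp only
    rw [abs_of_nonpos ht]
    congr 1
    ring
  rw [← integrableOn_univ, ← Set.Iic_union_Ioi (a := (0 : ℝ))]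
  exact h2.union h1

theorem integrable_weight {φ : ℝ → ℝ} (hφ : IsWeight φ) {ε : ℝ} (hε : 0 < ε) :
    Integrable (fun t : ℝ => φ t * Real.exp (-(ε * |t|))) := by
  obtain ⟨C, hC, h⟩ := weight_bound hφ (half_pos hε)
  have h1 := (integrable_exp_abs (half_pos hε)).const_mul C
  apply h1.mono'
  · exact (hφ.meas.mul (by fun_prop)).aestronglyMeasurable
  · refine ae_of_all _ fun t => ?_
    have hp : 0 ≤ φ t := zero_le_one.trans (hφ.one_le t)
    rw [Real.norm_eq_abs, abs_of_nonneg (mul_nonneg hp (Real.exp_pos _).le)]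
    calc φ t * Real.exp (-(ε * |t|)) ≤ C * Real.exp (ε / 2 * |t|) * Real.exp (-(ε * |t|)) :=
          mul_le_mul_of_nonneg_right (h t) (Real.exp_pos _).le
      _ = C * Real.exp (-(ε / 2 * |t|)) := by
          rw [mul_assoc, ← Real.exp_add]
          congr 2
          ring

/-! ### Analyticity of integrals of exponentials -/

theorem differentiableOn_exp_integral {X : Type*} [MeasurableSpace X] {μ : Measure X} {w : X → ℂ}
    {τ : X → ℝ} (hw : AEStronglyMeasurable w μ) (hτ : Measurable τ) {U : Set ℂ} (hU : IsOpen U)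
    (h : ∀ z ∈ U, Integrable (fun x => w x * Complex.exp (z * τ x)) μ) :
    DifferentiableOn ℂ (fun z => ∫ x, w x * Complex.exp (z * τ x) ∂μ) U := by
  intro z0 hz0
  apply DifferentiableAt.differentiableWithinAt
  obtain ⟨r, hr, hball⟩ := Metric.isOpen_iff.1 hU z0 hz0
  have hr2 : 0 < r / 2 := half_pos hr
  have hp : z0 + (r / 2 : ℝ) ∈ U := by
    apply hball
    rw [Metric.mem_ball, dist_eq_norm, add_sub_cancel_left, Complex.norm_real, Real.norm_eq_abs,
      abs_of_pos hr2]
    linarith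
  have hm : z0 - (r / 2 : ℝ) ∈ U := by
    apply hball
    rw [Metric.mem_ball, dist_eq_norm, sub_sub_cancel_left, norm_neg, Complex.norm_real,
      Real.norm_eq_abs, abs_of_pos hr2]
    linarith
  have key := hasDerivAt_integral_of_dominated_loc_of_deriv_le (μ := μ) (x₀ := z0)
    (s := Metric.ball z0 (r / 4))
    (F := fun z x => w x * Complex.exp (z * τ x))
    (F' := fun z x => w x * (Complex.exp (z * τ x) * τ x))
    (bound := fun x => 4 / r * (‖w x * Complex.exp ((z0 + (r / 2 : ℝ)) * τ x)‖ +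
      ‖w x * Complex.exp ((z0 - (r / 2 : ℝ)) * τ x)‖))
    (Metric.ball_mem_nhds _ (by linarith)) ?_ (h z0 hz0) ?_ ?_ ?_ ?_
  · exact key.2.differentiableAt
  · refine Eventually.of_forall fun z => ?_
    exact hw.mul (Measurable.aestronglyMeasurable (by fun_prop))
  · exact hw.mul (Measurable.aestronglyMeasurable (by fun_prop))
  · refine ae_of_all _ fun x z hz => ?_
    rw [norm_mul, norm_mul, norm_mul, norm_mul, Complex.norm_exp, Complex.norm_exp,
      Complex.norm_exp, Complex.norm_real, Real.norm_eq_abs]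
    have e1 : (z * (τ x : ℂ)).re = z.re * τ x := by simp
    have e2 : ((z0 + (r / 2 : ℝ)) * (τ x : ℂ)).re = (z0.re + r / 2) * τ x := by simp
    have e3 : ((z0 - (r / 2 : ℝ)) * (τ x : ℂ)).re = (z0.re - r / 2) * τ x := by simp
    rw [e1, e2, e3, ← mul_add, mul_left_comm (4 / r)]
    apply mul_le_mul_of_nonneg_left _ (norm_nonneg _)
    have h1 : |z.re - z0.re| ≤ r / 4 := by
      rw [Metric.mem_ball, dist_eq_norm] at hz
      calc |z.re - z0.re| = |(z - z0).re| := by simp
        _ ≤ ‖z - z0‖ := Complex.abs_re_le_norm _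
        _ ≤ r / 4 := hz.le
    have h2 : z.re * τ x ≤ z0.re * τ x + r / 4 * |τ x| := by
      have : (z.re - z0.re) * τ x ≤ r / 4 * |τ x| := by
        calc (z.re - z0.re) * τ x ≤ |(z.re - z0.re) * τ x| := le_abs_self _
          _ = |z.re - z0.re| * |τ x| := abs_mul _ _
          _ ≤ r / 4 * |τ x| := mul_le_mul_of_nonneg_right h1 (abs_nonneg _)
      linarith
    have h3 : |τ x| ≤ 4 / r * Real.exp (r / 4 * |τ x|) := by
      have h4 : r / 4 * |τ x| ≤ Real.exp (r / 4 * |τ x|) := by
        linarith [Real.add_one_le_exp (r / 4 * |τ x|)]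
      calc |τ x| = 4 / r * (r / 4 * |τ x|) := by
            field_simp
        _ ≤ 4 / r * Real.exp (r / 4 * |τ x|) := mul_le_mul_of_nonneg_left h4 (by positivity)
    calc Real.exp (z.re * τ x) * |τ x|
        ≤ Real.exp (z0.re * τ x + r / 4 * |τ x|) * (4 / r * Real.exp (r / 4 * |τ x|)) :=
          mul_le_mul (Real.exp_le_exp.2 h2) h3 (abs_nonneg _) (Real.exp_pos _).le
      _ = 4 / r * Real.exp (z0.re * τ x + r / 2 * |τ x|) := by
          rw [mul_left_comm, ← Real.exp_add]
          congr 2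
          ring
      _ ≤ 4 / r * (Real.exp ((z0.re + r / 2) * τ x) + Real.exp ((z0.re - r / 2) * τ x)) := by
          apply mul_le_mul_of_nonneg_left _ (by positivity)
          rcases le_total 0 (τ x) with h5 | h5
          · rw [abs_of_nonneg h5, ← add_mul]
            linarith [Real.exp_pos ((z0.re - r / 2) * τ x)]
          · rw [abs_of_nonpos h5]
            have : z0.re * τ x + r / 2 * -τ x = (z0.re - r / 2) * τ x := by ring
            rw [this]
            linarith [Real.exp_pos ((z0.re + r / 2) * τ x)]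
  · exact ((h _ hp).norm.add (h _ hm).norm).const_mul _
  · refine ae_of_all _ fun x z _ => ?_
    have h1 : HasDerivAt (fun z : ℂ => z * (τ x : ℂ)) (τ x : ℂ) z := by
      simpa using (hasDerivAt_id z).mul_const (τ x : ℂ)
    exact (h1.cexp).const_mul _

/-! ### The kernel of the resolvent -/

/-- the kernel of the resolvent -/
def rk (a : ℂ) (t : ℝ) : ℂ :=
  if 0 < a.re then (if 0 < t then Complex.exp (-(a * t)) else 0)
  else (if t < 0 then -Complex.exp (-(a * t)) else 0)

theorem measurable_rk (a : ℂ) : Measurable (rk a) := by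
  unfold rk
  split_ifs
  · exact Measurable.ite measurableSet_Ioi (by fun_prop) measurable_const
  · exact Measurable.ite measurableSet_Iio (by fun_prop) measurable_const

theorem norm_rk {a : ℂ} (ha : a.re ≠ 0) (t : ℝ) : ‖rk a t‖ ≤ Real.exp (-(|a.re| * |t|)) := by
  have h0 : (-(a * (t : ℂ))).re = -(a.re * t) := by simp
  unfold rk
  split_ifs with h1 h2 h2
  · rw [Complex.norm_exp, h0, abs_of_pos h1, abs_of_pos h2]
  · rw [norm_zero]
    exact (Real.exp_pos _).le
  · have h3 : a.re < 0 := lt_of_le_of_ne (not_lt.1 h1) ha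
    rw [norm_neg, Complex.norm_exp, h0, abs_of_neg h3, abs_of_neg h2, neg_mul_neg]
  · rw [norm_zero]
    exact (Real.exp_pos _).le

/-- the resolvent at the point zero -/
def UU (a : ℂ) (g : ℝ → ℂ) : ℂ := ∫ s, rk a s * g s

section weighted

variable {φ : ℝ → ℝ} (hφ : IsWeight φ)

include hφ

theorem integrable_rk {a : ℂ} (ha : a.re ≠ 0) : Integrable (fun t => φ t * ‖rk a t‖) := by
  apply (integrable_weight hφ (abs_pos.2 ha)).mono'
  · exact (hφ.meas.mul (measurable_rk a).norm).aestronglyMeasurable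
  · refine ae_of_all _ fun t => ?_
    have hp : 0 ≤ φ t := zero_le_one.trans (hφ.one_le t)
    rw [Real.norm_eq_abs, abs_of_nonneg (mul_nonneg hp (norm_nonneg _))]
    exact mul_le_mul_of_nonneg_left (norm_rk ha t) hp

/-- integrability of the product of an element of the predual and a translate -/
theorem integrable_mul_shift {f g : ℝ → ℂ} {C : ℝ} (hf : Measurable f)
    (hf1 : Integrable (fun t => φ t * ‖f t‖)) (hg : Measurable g)
    (hg1 : ∀ t, ‖g t‖ ≤ C * φ t) (s : ℝ) : Integrable (fun t => f t * g (t + s)) := by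
  apply (hf1.const_mul (C * φ s)).mono'
  · exact (hf.mul (hg.comp (measurable_id.add_const s))).aestronglyMeasurable
  · refine ae_of_all _ fun t => ?_
    have hC : 0 ≤ C := by
      have h1 := hg1 0
      have h2 := norm_nonneg (g 0)
      have h3 := hφ.one_le 0
      nlinarith
    rw [norm_mul]
    calc ‖f t‖ * ‖g (t + s)‖ ≤ ‖f t‖ * (C * φ (t + s)) :=
          mul_le_mul_of_nonneg_left (hg1 _) (norm_nonneg _)
      _ ≤ ‖f t‖ * (C * (φ t * φ s)) := by
          apply mul_le_mul_of_nonneg_left _ (norm_nonneg _)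
          exact mul_le_mul_of_nonneg_left (hφ.submul t s) hC
      _ = C * φ s * (φ t * ‖f t‖) := by ring

theorem norm_integral_le_Q {f g : ℝ → ℂ} {C : ℝ}
    (hf1 : Integrable (fun t => φ t * ‖f t‖))
    (hg1 : ∀ t, ‖g t‖ ≤ C * φ t) (s : ℝ) :
    ‖∫ t, f t * g (t + s)‖ ≤ C * (∫ t, φ t * ‖f t‖) * φ s := by
  have hC : 0 ≤ C := by
    have h1 := hg1 0
    have h2 := norm_nonneg (g 0)
    have h3 := hφ.one_le 0
    nlinarith
  have := norm_integral_le_of_norm_le (hf1.const_mul (C * φ s)) (ae_of_all volume fun t => ?_)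
    (f := fun t => f t * g (t + s))
  · rw [integral_const_mul] at this
    linarith
  · rw [norm_mul]
    calc ‖f t‖ * ‖g (t + s)‖ ≤ ‖f t‖ * (C * φ (t + s)) :=
          mul_le_mul_of_nonneg_left (hg1 _) (norm_nonneg _)
      _ ≤ ‖f t‖ * (C * (φ t * φ s)) := by
          apply mul_le_mul_of_nonneg_left _ (norm_nonneg _)
          exact mul_le_mul_of_nonneg_left (hφ.submul t s) hC
      _ = C * φ s * (φ t * ‖f t‖) := by ring

/-- integrability on the product -/
theorem integrable_prod {f q g : ℝ → ℂ} {C : ℝ} (hf : Measurable f)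
    (hf1 : Integrable (fun t => φ t * ‖f t‖)) (hq : Measurable q)
    (hq1 : Integrable (fun t => φ t * ‖q t‖)) (hg : Measurable g)
    (hg1 : ∀ t, ‖g t‖ ≤ C * φ t) (s : ℝ) :
    Integrable (fun x : ℝ × ℝ => f x.1 * (q x.2 * g (x.2 + (x.1 + s)))) (volume.prod volume) := by
  have hC : 0 ≤ C := by
    have h1 := hg1 0
    have h2 := norm_nonneg (g 0)
    have h3 := hφ.one_le 0
    nlinarith
  have h1 := (hf1.mul_prod hq1).const_mul (C * φ s)
  apply h1.mono'
  · apply Measurable.aestronglyMeasurable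
    exact (hf.comp measurable_fst).mul ((hq.comp measurable_snd).mul
      (hg.comp (by fun_prop)))
  · refine ae_of_all _ fun x => ?_
    rw [norm_mul, norm_mul]
    have h2 : φ (x.2 + (x.1 + s)) ≤ φ x.2 * (φ x.1 * φ s) := by
      have hp : 0 ≤ φ x.2 := zero_le_one.trans (hφ.one_le _)
      exact (hφ.submul _ _).trans (mul_le_mul_of_nonneg_left (hφ.submul _ _) hp)
    calc ‖f x.1‖ * (‖q x.2‖ * ‖g (x.2 + (x.1 + s))‖)
        ≤ ‖f x.1‖ * (‖q x.2‖ * (C * (φ x.2 * (φ x.1 * φ s)))) := by
          apply mul_le_mul_of_nonneg_left _ (norm_nonneg _)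
          apply mul_le_mul_of_nonneg_left _ (norm_nonneg _)
          exact (hg1 _).trans (mul_le_mul_of_nonneg_left h2 hC)
      _ = C * φ s * (φ x.1 * ‖f x.1‖ * (φ x.2 * ‖q x.2‖)) := by ring

/-! ### The iterates -/

omit hφ in
/-- the iterates of the convolution with `q` -/
def Gs (q G : ℝ → ℂ) : ℕ → ℝ → ℂ
  | 0 => G
  | k + 1 => fun s => ∫ t, q t * Gs q G k (t + s)

omit hφ in
theorem Gs_measurable {q G : ℝ → ℂ} (hq : Measurable q) (hG : Measurable G) (k : ℕ) :
    Measurable (Gs q G k) := by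
  induction k with
  | zero => exact hG
  | succ k ih =>
    have : StronglyMeasurable (fun x : ℝ × ℝ => q x.2 * Gs q G k (x.2 + x.1)) := by
      apply Measurable.stronglyMeasurable
      exact (hq.comp measurable_snd).mul (ih.comp (by fun_prop))
    exact (this.integral_prod_right' (ν := volume)).measurable

theorem Gs_bound {q G : ℝ → ℂ} {C : ℝ}
    (hq1 : Integrable (fun t => φ t * ‖q t‖)) (hG1 : ∀ t, ‖G t‖ ≤ C * φ t) (k : ℕ) (s : ℝ) :
    ‖Gs q G k s‖ ≤ C * (∫ t, φ t * ‖q t‖) ^ k * φ s := by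
  induction k generalizing s with
  | zero =>
    rw [pow_zero, mul_one]
    exact hG1 s
  | succ k ih =>
    have := norm_integral_le_Q hφ hq1 ih s
    rw [pow_succ]
    calc ‖Gs q G (k + 1) s‖ = ‖∫ t, q t * Gs q G k (t + s)‖ := rfl
      _ ≤ _ := this
      _ = _ := by ring

theorem Gs_ann {f q G : ℝ → ℂ} {C : ℝ} (hf : Measurable f)
    (hf1 : Integrable (fun t => φ t * ‖f t‖)) (hq : Measurable q)
    (hq1 : Integrable (fun t => φ t * ‖q t‖)) (hG : Measurable G)
    (hG1 : ∀ t, ‖G t‖ ≤ C * φ t) (hann : ∀ s, ∫ t, f t * G (t + s) = 0) (k : ℕ) (s : ℝ) :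
    ∫ t, f t * Gs q G k (t + s) = 0 := by
  induction k generalizing s with
  | zero => exact hann s
  | succ k ih =>
    have hi := integrable_prod hφ hf hf1 hq hq1 (Gs_measurable hq hG k)
      (Gs_bound hφ hq1 hG1 k) s
    calc ∫ t, f t * Gs q G (k + 1) (t + s)
        = ∫ t, ∫ v, f t * (q v * Gs q G k (v + (t + s))) := by
          apply integral_congr_ae
          refine ae_of_all _ fun t => ?_
          simp only
          rw [integral_const_mul]
          rfl
      _ = ∫ v, ∫ t, f t * (q v * Gs q G k (v + (t + s))) := integral_integral_swap hi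
      _ = ∫ v, (0 : ℂ) := by
          apply integral_congr_ae
          refine ae_of_all _ fun v => ?_
          simp only
          calc ∫ t, f t * (q v * Gs q G k (v + (t + s)))
              = ∫ t, q v * (f t * Gs q G k (t + (v + s))) := by
                apply integral_congr_ae
                refine ae_of_all _ fun t => ?_
                simp only
                have : v + (t + s) = t + (v + s) := by ring
                rw [this]
                ring
            _ = 0 := by rw [integral_const_mul, ih, mul_zero]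
      _ = 0 := by simp

omit hφ in
theorem rk_mul_pos {a : ℂ} (ha : 0 < a.re) (g : ℝ → ℂ) (t s : ℝ) : rk a s * g (s + t) =
    Complex.exp (a * t) * (Set.Ioi t).indicator (fun v => Complex.exp (-(a * v)) * g v) (s + t) := by
  unfold rk
  rw [if_pos ha]
  by_cases h : 0 < s
  · rw [if_pos h, Set.indicator_of_mem (show s + t ∈ Set.Ioi t by simpa using h), ← mul_assoc,
      ← Complex.exp_add]
    congr 2
    push_cast
    ring
  · rw [if_neg h, Set.indicator_of_notMem (show s + t ∉ Set.Ioi t by simpa using h)]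
    simp

omit hφ in
theorem rk_mul_neg {a : ℂ} (ha : a.re < 0) (g : ℝ → ℂ) (t s : ℝ) : rk a s * g (s + t) =
    Complex.exp (a * t) *
      -(Set.Iio t).indicator (fun v => Complex.exp (-(a * v)) * g v) (s + t) := by
  unfold rk
  rw [if_neg (not_lt.2 ha.le)]
  by_cases h : s < 0
  · rw [if_pos h, Set.indicator_of_mem (show s + t ∈ Set.Iio t by simpa using h), mul_neg,
      ← mul_assoc, ← Complex.exp_add, neg_mul]
    congr 3
    push_cast
    ring
  · rw [if_neg h, Set.indicator_of_notMem (show s + t ∉ Set.Iio t by simpa using h)]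
    simp

theorem integrableOn_pos {a : ℂ} (ha : 0 < a.re) {g : ℝ → ℂ} {C : ℝ} (hg : Measurable g)
    (hg1 : ∀ t, ‖g t‖ ≤ C * φ t) (t : ℝ) :
    IntegrableOn (fun v : ℝ => Complex.exp (-(a * v)) * g v) (Set.Ioi t) := by
  have h1 := integrable_mul_shift hφ (measurable_rk a) (integrable_rk hφ ha.ne') hg hg1 t
  simp only [rk_mul_pos ha] at h1
  have h2 := h1.const_mul (Complex.exp (-(a * t)))
  have h3 := h2.comp_add_right (-t)
  rw [← integrable_indicator_iff measurableSet_Ioi]
  apply h3.congr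
  refine ae_of_all _ fun v => ?_
  simp only
  rw [← mul_assoc, ← Complex.exp_add]
  simp

theorem integrableOn_neg {a : ℂ} (ha : a.re < 0) {g : ℝ → ℂ} {C : ℝ} (hg : Measurable g)
    (hg1 : ∀ t, ‖g t‖ ≤ C * φ t) (t : ℝ) :
    IntegrableOn (fun v : ℝ => Complex.exp (-(a * v)) * g v) (Set.Iio t) := by
  have h1 := integrable_mul_shift hφ (measurable_rk a) (integrable_rk hφ ha.ne) hg hg1 t
  simp only [rk_mul_neg ha] at h1
  have h2 := (h1.const_mul (Complex.exp (-(a * t)))).neg
  have h3 := h2.comp_add_right (-t)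
  rw [← integrable_indicator_iff measurableSet_Iio]
  apply h3.congr
  refine ae_of_all _ fun v => ?_
  simp only [Pi.neg_apply]
  rw [← mul_assoc, ← Complex.exp_add]
  simp

/-- the resolvent at another point -/
theorem UU_shift {a : ℂ} (ha : a.re ≠ 0) {g : ℝ → ℂ} {C : ℝ} (hg : Measurable g)
    (hg1 : ∀ t, ‖g t‖ ≤ C * φ t) (t : ℝ) : ∫ s, rk a s * g (s + t) =
      Complex.exp (a * t) * (UU a g - ∫ v in (0 : ℝ)..t, Complex.exp (-(a * v)) * g v) := by
  rcases lt_or_gt_of_ne ha with ha | ha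
  · have key : ∀ t : ℝ, ∫ s, rk a s * g (s + t) = Complex.exp (a * t) *
        -∫ v in Set.Iio t, Complex.exp (-(a * v)) * g v := by
      intro t
      simp only [rk_mul_neg ha]
      rw [integral_const_mul, integral_neg,
        integral_add_right_eq_self (fun v => (Set.Iio t).indicator _ v) t,
        integral_indicator measurableSet_Iio]
    have h0 := key 0
    simp only [add_zero, ofReal_zero, mul_zero, Complex.exp_zero, one_mul] at h0
    rw [key, UU, h0]
    rw [← intervalIntegral.integral_Iio_sub_Iio' (integrableOn_neg hφ ha hg hg1 t)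
      (integrableOn_neg hφ ha hg hg1 0)]
    ring
  · have key : ∀ t : ℝ, ∫ s, rk a s * g (s + t) = Complex.exp (a * t) *
        ∫ v in Set.Ioi t, Complex.exp (-(a * v)) * g v := by
      intro t
      simp only [rk_mul_pos ha]
      rw [integral_const_mul,
        integral_add_right_eq_self (fun v => (Set.Ioi t).indicator _ v) t,
        integral_indicator measurableSet_Ioi]
    have h0 := key 0
    simp only [add_zero, ofReal_zero, mul_zero, Complex.exp_zero, one_mul] at h0
    rw [key, UU, h0]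
    rw [← intervalIntegral.integral_Ioi_sub_Ioi' (integrableOn_pos hφ ha hg hg1 0)
      (integrableOn_pos hφ ha hg hg1 t)]
    ring

theorem UU_bound {a : ℂ} (ha : a.re ≠ 0) {g : ℝ → ℂ} {C : ℝ}
    (hg1 : ∀ t, ‖g t‖ ≤ C * φ t) : ‖UU a g‖ ≤ C * (∫ t, φ t * ‖rk a t‖) * φ 0 := by
  have := norm_integral_le_Q hφ (integrable_rk hφ ha) hg1 0
  simp only [add_zero] at this
  exact this

/-! ### The analytic pieces -/

omit hφ in
/-- the sign of the interval from `0` to `t` -/
def sgm (t v : ℝ) : ℂ := (Set.Ioc 0 t).indicator 1 v - (Set.Ioc t 0).indicator 1 v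

omit hφ in
theorem measurable_sgm : Measurable (fun x : ℝ × ℝ => sgm x.1 x.2) := by
  have e : (fun x : ℝ × ℝ => sgm x.1 x.2) = fun x : ℝ × ℝ =>
      {x : ℝ × ℝ | 0 < x.2 ∧ x.2 ≤ x.1}.indicator (1 : ℝ × ℝ → ℂ) x -
        {x : ℝ × ℝ | x.1 < x.2 ∧ x.2 ≤ 0}.indicator (1 : ℝ × ℝ → ℂ) x := by
    funext x
    unfold sgm
    simp only [Set.indicator, Set.mem_Ioc, Set.mem_setOf_eq, Pi.one_apply]
  rw [e]
  have m1 : MeasurableSet {x : ℝ × ℝ | 0 < x.2 ∧ x.2 ≤ x.1} :=
    (measurableSet_lt measurable_const measurable_snd).inter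
      (measurableSet_le measurable_snd measurable_fst)
  have m2 : MeasurableSet {x : ℝ × ℝ | x.1 < x.2 ∧ x.2 ≤ 0} :=
    (measurableSet_lt measurable_fst measurable_snd).inter
      (measurableSet_le measurable_snd measurable_const)
  exact (measurable_one.indicator m1).sub (measurable_one.indicator m2)

omit hφ in
theorem integral_sgm (t : ℝ) (h : ℝ → ℂ) (hi : IntervalIntegrable h volume 0 t) :
    ∫ v, sgm t v * h v = ∫ v in (0 : ℝ)..t, h v := by
  unfold sgm
  have e : ∀ v, ((Set.Ioc 0 t).indicator (1 : ℝ → ℂ) v - (Set.Ioc t 0).indicator (1 : ℝ → ℂ) v) *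
      h v = (Set.Ioc 0 t).indicator h v - (Set.Ioc t 0).indicator h v := by
    intro v
    simp only [Set.indicator, Pi.one_apply]
    split_ifs <;> simp
  simp only [e]
  rw [integral_sub, integral_indicator measurableSet_Ioc, integral_indicator measurableSet_Ioc,
    intervalIntegral]
  · rw [integrable_indicator_iff measurableSet_Ioc]
    exact hi.1
  · rw [integrable_indicator_iff measurableSet_Ioc]
    exact hi.2

/-- the correction terms -/
def SS (p g : ℝ → ℂ) (a : ℂ) : ℂ :=
  ∫ x : ℝ × ℝ, (p x.1 * (sgm x.1 x.2 * g x.2)) * Complex.exp (a * ((x.1 - x.2 : ℝ) : ℂ))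

/-- the Fourier-Laplace transform -/
def al (p : ℝ → ℂ) (a : ℂ) : ℂ := ∫ t, p t * Complex.exp (a * (t : ℂ))

omit hφ in
theorem norm_sgm_le (t v : ℝ) : ‖sgm t v‖ ≤ 1 := by
  unfold sgm
  simp only [Set.indicator, Set.mem_Ioc, Pi.one_apply]
  split_ifs with h1 h2 h2
  · simp
  · simp
  · simp
  · simp

omit hφ in
theorem sgm_zero {t v : ℝ} (h : ¬ (|v| ≤ |t| ∧ |t - v| ≤ |t|)) : sgm t v = 0 := by
  unfold sgm
  rw [Set.indicator_of_notMem, Set.indicator_of_notMem, sub_zero]
  · rintro ⟨h1, h2⟩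
    apply h
    constructor
    · rw [abs_of_nonpos h2, abs_of_nonpos (h1.le.trans h2)]
      linarith
    · rw [abs_of_nonpos (by linarith), abs_of_nonpos (h1.le.trans h2)]
      linarith
  · rintro ⟨h1, h2⟩
    apply h
    constructor
    · rw [abs_of_nonneg h1.le, abs_of_nonneg (h1.le.trans h2)]
      linarith
    · rw [abs_of_nonneg (by linarith), abs_of_nonneg (h1.le.trans h2)]
      linarith

theorem integrableOn_weight (T : ℝ) : IntegrableOn φ (Set.Icc (-T) T) := by
  obtain ⟨C, hC, h⟩ := weight_bound hφ one_pos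
  apply Measure.integrableOn_of_bounded (M := C * Real.exp |T|)
  · exact measure_Icc_lt_top.ne
  · exact hφ.meas.aestronglyMeasurable
  · refine (ae_restrict_iff' measurableSet_Icc).2 (ae_of_all _ fun t ht => ?_)
    have hp : 0 ≤ φ t := zero_le_one.trans (hφ.one_le t)
    rw [Real.norm_eq_abs, abs_of_nonneg hp]
    apply (h t).trans
    apply mul_le_mul_of_nonneg_left _ hC.le
    apply Real.exp_le_exp.2
    rw [one_mul]
    have h2 : |t| ≤ T := abs_le.2 ht
    exact h2.trans (le_abs_self T)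

theorem intervalIntegrable_exp {g : ℝ → ℂ} {C : ℝ} (hg : Measurable g)
    (hg1 : ∀ t, ‖g t‖ ≤ C * φ t) (a : ℂ) (t : ℝ) :
    IntervalIntegrable (fun v : ℝ => Complex.exp (-(a * v)) * g v) volume 0 t := by
  have hC : 0 ≤ C := by
    have h1 := hg1 0
    have h2 := norm_nonneg (g 0)
    have h3 := hφ.one_le 0
    nlinarith
  have h1 : IntegrableOn (fun v : ℝ => Complex.exp (-(a * v)) * g v) (Set.Icc (-|t|) |t|) := by
    apply ((integrableOn_weight hφ |t|).const_mul (Real.exp (‖a‖ * |t|) * C)).mono'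
    · exact (Measurable.mul (by fun_prop) hg).aestronglyMeasurable
    · refine (ae_restrict_iff' measurableSet_Icc).2 (ae_of_all _ fun v hv => ?_)
      rw [norm_mul, mul_assoc]
      apply mul_le_mul _ (hg1 v) (norm_nonneg _) (Real.exp_pos _).le
      rw [Complex.norm_exp]
      apply Real.exp_le_exp.2
      calc (-(a * (v : ℂ))).re ≤ ‖-(a * (v : ℂ))‖ := Complex.re_le_norm _
        _ = ‖a‖ * |v| := by rw [norm_neg, norm_mul, Complex.norm_real, Real.norm_eq_abs]
        _ ≤ ‖a‖ * |t| := mul_le_mul_of_nonneg_left (abs_le.2 hv) (norm_nonneg _)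
  rw [intervalIntegrable_iff]
  apply h1.mono_set
  intro v hv
  rw [Set.mem_uIoc] at hv
  rcases hv with ⟨h2, h3⟩ | ⟨h2, h3⟩
  · constructor
    · linarith [abs_nonneg t]
    · exact h3.trans (le_abs_self t)
  · constructor
    · linarith [neg_abs_le t]
    · linarith [abs_nonneg t]

section compact

variable {p : ℝ → ℂ} {T : ℝ} (hp : Measurable p) (hp1 : Integrable (fun t => φ t * ‖p t‖))
  (hp2 : ∀ t, T < |t| → p t = 0)

include hp hp1

theorem integrable_norm_p : Integrable (fun t => ‖p t‖) := by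
  apply hp1.mono' hp.norm.aestronglyMeasurable
  refine ae_of_all _ fun t => ?_
  rw [Real.norm_eq_abs, abs_of_nonneg (norm_nonneg _)]
  have := hφ.one_le t
  have := norm_nonneg (p t)
  nlinarith

include hp2

theorem integrable_al (a : ℂ) : Integrable (fun t => p t * Complex.exp (a * (t : ℂ))) := by
  apply ((integrable_norm_p hφ hp hp1).const_mul (Real.exp (‖a‖ * T))).mono'
  · exact (hp.mul (by fun_prop)).aestronglyMeasurable
  · refine ae_of_all _ fun t => ?_
    rcases lt_or_ge T |t| with h | h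
    · rw [hp2 t h]
      simp
    · rw [norm_mul, mul_comm]
      apply mul_le_mul_of_nonneg_right _ (norm_nonneg _)
      rw [Complex.norm_exp]
      apply Real.exp_le_exp.2
      calc (a * (t : ℂ)).re ≤ ‖a * (t : ℂ)‖ := Complex.re_le_norm _
        _ = ‖a‖ * |t| := by rw [norm_mul, Complex.norm_real, Real.norm_eq_abs]
        _ ≤ ‖a‖ * T := mul_le_mul_of_nonneg_left h (norm_nonneg _)

theorem differentiable_al : Differentiable ℂ (al p) := by
  rw [← differentiableOn_univ]
  exact differentiableOn_exp_integral hp.aestronglyMeasurable measurable_id isOpen_univ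
    fun a _ => integrable_al hφ hp hp1 hp2 a

/-- the bound of the integrand on the plane -/
theorem SS_integrand {g : ℝ → ℂ} {C : ℝ} (hg1 : ∀ t, ‖g t‖ ≤ C * φ t) (a : ℂ) (x : ℝ × ℝ) :
    ‖(p x.1 * (sgm x.1 x.2 * g x.2)) * Complex.exp (a * ((x.1 - x.2 : ℝ) : ℂ))‖ ≤
      Real.exp (‖a‖ * T) * C * (‖p x.1‖ * (Set.Icc (-T) T).indicator φ x.2) := by
  have hC : 0 ≤ C := by
    have h1 := hg1 0
    have h2 := norm_nonneg (g 0)
    have h3 := hφ.one_le 0
    nlinarith
  have hnn : 0 ≤ (Set.Icc (-T) T).indicator φ x.2 :=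
    Set.indicator_nonneg (fun t _ => zero_le_one.trans (hφ.one_le t)) _
  rcases lt_or_ge T |x.1| with h | h
  · rw [hp2 _ h]
    simp
  · by_cases h2 : |x.2| ≤ |x.1| ∧ |x.1 - x.2| ≤ |x.1|
    · have h3 : x.2 ∈ Set.Icc (-T) T := abs_le.1 (h2.1.trans h)
      rw [Set.indicator_of_mem h3, norm_mul, norm_mul, norm_mul]
      have e1 : ‖Complex.exp (a * ((x.1 - x.2 : ℝ) : ℂ))‖ ≤ Real.exp (‖a‖ * T) := by
        rw [Complex.norm_exp]
        apply Real.exp_le_exp.2
        calc (a * ((x.1 - x.2 : ℝ) : ℂ)).re ≤ ‖a * ((x.1 - x.2 : ℝ) : ℂ)‖ := Complex.re_le_norm _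
          _ = ‖a‖ * |x.1 - x.2| := by rw [norm_mul, Complex.norm_real, Real.norm_eq_abs]
          _ ≤ ‖a‖ * T := mul_le_mul_of_nonneg_left (h2.2.trans h) (norm_nonneg _)
      have e2 : ‖sgm x.1 x.2‖ * ‖g x.2‖ ≤ C * φ x.2 := by
        calc ‖sgm x.1 x.2‖ * ‖g x.2‖ ≤ 1 * ‖g x.2‖ :=
              mul_le_mul_of_nonneg_right (norm_sgm_le _ _) (norm_nonneg _)
          _ ≤ C * φ x.2 := by rw [one_mul]; exact hg1 _
      calc ‖p x.1‖ * (‖sgm x.1 x.2‖ * ‖g x.2‖) * ‖Complex.exp (a * ((x.1 - x.2 : ℝ) : ℂ))‖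
          ≤ ‖p x.1‖ * (C * φ x.2) * Real.exp (‖a‖ * T) := by
            apply mul_le_mul _ e1 (norm_nonneg _)
            · have : 0 ≤ φ x.2 := zero_le_one.trans (hφ.one_le _)
              positivity
            · exact mul_le_mul_of_nonneg_left e2 (norm_nonneg _)
        _ = _ := by ring
    · rw [sgm_zero h2]
      simp only [zero_mul, mul_zero, norm_zero]
      positivity

theorem integrable_SS {g : ℝ → ℂ} {C : ℝ} (hg : Measurable g) (hg1 : ∀ t, ‖g t‖ ≤ C * φ t)
    (a : ℂ) : Integrable (fun x : ℝ × ℝ =>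
      (p x.1 * (sgm x.1 x.2 * g x.2)) * Complex.exp (a * ((x.1 - x.2 : ℝ) : ℂ))) := by
  have h1 := (integrable_norm_p hφ hp hp1).mul_prod
    ((integrableOn_weight hφ T).integrable_indicator measurableSet_Icc)
  apply (h1.const_mul (Real.exp (‖a‖ * T) * C)).mono'
  · apply Measurable.aestronglyMeasurable
    exact ((hp.comp measurable_fst).mul (measurable_sgm.mul (hg.comp measurable_snd))).mul
      (by fun_prop)
  · exact ae_of_all _ fun x => SS_integrand hφ hp hp1 hp2 hg1 a x

theorem differentiable_SS {g : ℝ → ℂ} {C : ℝ} (hg : Measurable g)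
    (hg1 : ∀ t, ‖g t‖ ≤ C * φ t) : Differentiable ℂ (SS p g) := by
  rw [← differentiableOn_univ]
  apply differentiableOn_exp_integral _ (by fun_prop) isOpen_univ
  · intro a _
    exact integrable_SS hφ hp hp1 hp2 hg hg1 a
  · apply Measurable.aestronglyMeasurable
    exact (hp.comp measurable_fst).mul (measurable_sgm.mul (hg.comp measurable_snd))

theorem SS_bound {g : ℝ → ℂ} {C : ℝ} (hg1 : ∀ t, ‖g t‖ ≤ C * φ t) (a : ℂ) :
    ‖SS p g a‖ ≤ Real.exp (‖a‖ * T) * C * ((∫ t, ‖p t‖) * ∫ t in Set.Icc (-T) T, φ t) := by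
  have h1 := (integrable_norm_p hφ hp hp1).mul_prod
    ((integrableOn_weight hφ T).integrable_indicator measurableSet_Icc)
  have h2 := norm_integral_le_of_norm_le (h1.const_mul (Real.exp (‖a‖ * T) * C))
    (ae_of_all _ fun x => SS_integrand hφ hp hp1 hp2 hg1 a x)
  rw [integral_const_mul] at h2
  have h3 : ∫ x : ℝ × ℝ, ‖p x.1‖ * (Set.Icc (-T) T).indicator φ x.2 ∂(volume.prod volume) =
      (∫ t, ‖p t‖) * ∫ t in Set.Icc (-T) T, φ t := by
    rw [integral_prod_mul (fun t => ‖p t‖) ((Set.Icc (-T) T).indicator φ),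
      integral_indicator measurableSet_Icc]
  rw [h3] at h2
  exact h2

/-- the recursion -/
theorem UU_conv {g : ℝ → ℂ} {C : ℝ} (hg : Measurable g) (hg1 : ∀ t, ‖g t‖ ≤ C * φ t) {a : ℂ}
    (ha : a.re ≠ 0) : UU a (fun s => ∫ t, p t * g (t + s)) = al p a * UU a g - SS p g a := by
  have hi := integrable_prod hφ (measurable_rk a) (integrable_rk hφ ha) hp hp1 hg hg1 0
  have hS := integrable_SS hφ hp hp1 hp2 hg hg1 a
  have inner : ∀ t, ∫ v, (p t * (sgm t v * g v)) * Complex.exp (a * ((t - v : ℝ) : ℂ)) =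
      p t * (Complex.exp (a * t) * ∫ v in (0 : ℝ)..t, Complex.exp (-(a * v)) * g v) := by
    intro t
    rw [← integral_sgm _ _ (intervalIntegrable_exp hφ hg hg1 a t), ← integral_const_mul,
      ← integral_const_mul]
    apply integral_congr_ae
    refine ae_of_all _ fun v => ?_
    simp only
    have : Complex.exp (a * ((t - v : ℝ) : ℂ)) = Complex.exp (a * t) * Complex.exp (-(a * v)) := by
      rw [← Complex.exp_add]
      congr 1
      push_cast
      ring
    rw [this]
    ring
  calc UU a (fun s => ∫ t, p t * g (t + s))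
      = ∫ s, ∫ t, rk a s * (p t * g (t + (s + 0))) := by
        unfold UU
        apply integral_congr_ae
        refine ae_of_all _ fun s => ?_
        simp only [add_zero]
        rw [integral_const_mul]
    _ = ∫ t, ∫ s, rk a s * (p t * g (t + (s + 0))) := integral_integral_swap hi
    _ = ∫ t, (p t * Complex.exp (a * t) * UU a g -
        ∫ v, (p t * (sgm t v * g v)) * Complex.exp (a * ((t - v : ℝ) : ℂ))) := by
        apply integral_congr_ae
        refine ae_of_all _ fun t => ?_
        simp only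
        rw [inner t]
        have e : ∫ s, rk a s * (p t * g (t + (s + 0))) = p t * ∫ s, rk a s * g (s + t) := by
          rw [← integral_const_mul]
          apply integral_congr_ae
          refine ae_of_all _ fun s => ?_
          simp only [add_zero]
          rw [add_comm t s]
          ring
        rw [e, UU_shift hφ ha hg hg1]
        ring
    _ = al p a * UU a g - SS p g a := by
        rw [integral_sub]
        · rw [integral_mul_const]
          congr 1
          unfold SS
          rw [Measure.volume_eq_prod, integral_prod _ hS]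
        · exact (integrable_al hφ hp hp1 hp2 a).mul_const _
        · exact hS.integral_prod_left

end compact

section series

variable {f p q G : ℝ → ℂ} {T C : ℝ} (hf : Measurable f) (hf1 : Integrable (fun t => φ t * ‖f t‖))
  (hp : Measurable p) (hp1 : Integrable (fun t => φ t * ‖p t‖)) (hp2 : ∀ t, T < |t| → p t = 0)
  (hq : Measurable q) (hq1 : Integrable (fun t => φ t * ‖q t‖)) (hpq : ∀ t, q t = f t - p t)
  (hG : Measurable G) (hG1 : ∀ t, ‖G t‖ ≤ C * φ t) (hann : ∀ s, ∫ t, f t * G (t + s) = 0)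

include hf hf1 hp hp1 hp2 hq hq1 hpq hG hG1 hann

theorem UU_step {a : ℂ} (ha : a.re ≠ 0) (k : ℕ) :
    UU a (Gs q G (k + 1)) = SS p (Gs q G k) a - al p a * UU a (Gs q G k) := by
  have hm := Gs_measurable hq hG k
  have hb := Gs_bound hφ hq1 hG1 k
  have e : Gs q G (k + 1) = fun s => -∫ t, p t * Gs q G k (t + s) := by
    funext s
    have h1 := Gs_ann hφ hf hf1 hq hq1 hG hG1 hann k s
    have h2 : ∫ t, q t * Gs q G k (t + s) =
        (∫ t, f t * Gs q G k (t + s)) - ∫ t, p t * Gs q G k (t + s) := by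
      rw [← integral_sub (integrable_mul_shift hφ hf hf1 hm hb s)
        (integrable_mul_shift hφ hp hp1 hm hb s)]
      apply integral_congr_ae
      refine ae_of_all _ fun t => ?_
      simp only
      rw [hpq]
      ring
    rw [h1, zero_sub] at h2
    exact h2
  rw [e]
  have h3 := UU_conv hφ hp hp1 hp2 hm hb ha
  have h4 : UU a (fun s => -∫ t, p t * Gs q G k (t + s)) =
      -UU a (fun s => ∫ t, p t * Gs q G k (t + s)) := by
    unfold UU
    rw [← integral_neg]
    apply integral_congr_ae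
    refine ae_of_all _ fun s => ?_
    simp only
    ring
  rw [h4, h3]
  ring

theorem UU_finite {a : ℂ} (ha : a.re ≠ 0) (hal : al p a ≠ 0) (m : ℕ) :
    UU a G = (∑ k ∈ Finset.range m, (-1) ^ k * (al p a)⁻¹ ^ (k + 1) * SS p (Gs q G k) a) +
      (-1) ^ m * (al p a)⁻¹ ^ m * UU a (Gs q G m) := by
  induction m with
  | zero => simp [Gs]
  | succ m ih =>
    rw [ih, Finset.sum_range_succ,
      UU_step hφ hf hf1 hp hp1 hp2 hq hq1 hpq hG hG1 hann ha m]
    have h1 : (al p a)⁻¹ ^ (m + 1) * al p a = (al p a)⁻¹ ^ m := by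
      rw [pow_succ, mul_assoc, inv_mul_cancel₀ hal, mul_one]
    have h2 : (-1) ^ (m + 1) * (al p a)⁻¹ ^ (m + 1) *
        (SS p (Gs q G m) a - al p a * UU a (Gs q G m)) =
        -((-1) ^ m * (al p a)⁻¹ ^ (m + 1) * SS p (Gs q G m) a) +
          (-1) ^ m * ((al p a)⁻¹ ^ (m + 1) * al p a) * UU a (Gs q G m) := by ring
    rw [h2, h1]
    ring

/-- the bound of the terms of the series -/
theorem term_bound {a : ℂ} {R κ : ℝ} (hR : ‖a‖ ≤ R) (hT : 0 ≤ T) (hκ : 0 < κ)
    (hal : κ ≤ ‖al p a‖) (k : ℕ) :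
    ‖(-1) ^ k * (al p a)⁻¹ ^ (k + 1) * SS p (Gs q G k) a‖ ≤
      (κ⁻¹ * (Real.exp (R * T) * (C * ((∫ t, ‖p t‖) * ∫ t in Set.Icc (-T) T, φ t)))) *
        (κ⁻¹ * ∫ t, φ t * ‖q t‖) ^ k := by
  have hC : 0 ≤ C := by
    have h1 := hG1 0
    have h2 := norm_nonneg (G 0)
    have h3 := hφ.one_le 0
    nlinarith
  have hQ : 0 ≤ ∫ t, φ t * ‖q t‖ :=
    integral_nonneg fun t => mul_nonneg (zero_le_one.trans (hφ.one_le t)) (norm_nonneg _)
  have hP : 0 ≤ (∫ t, ‖p t‖) * ∫ t in Set.Icc (-T) T, φ t :=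
    mul_nonneg (integral_nonneg fun t => norm_nonneg _)
      (integral_nonneg fun t => zero_le_one.trans (hφ.one_le t))
  have hb := Gs_bound hφ hq1 hG1 k
  have h1 := SS_bound hφ hp hp1 hp2 hb a
  have h2 : ‖(al p a)⁻¹‖ ≤ κ⁻¹ := by
    rw [norm_inv]
    exact inv_anti₀ hκ hal
  rw [norm_mul, norm_mul, norm_pow, norm_neg, norm_one, one_pow, one_mul, norm_pow]
  have h3 : ‖(al p a)⁻¹‖ ^ (k + 1) ≤ κ⁻¹ ^ (k + 1) := pow_le_pow_left₀ (norm_nonneg _) h2 _
  have h4 : Real.exp (‖a‖ * T) ≤ Real.exp (R * T) :=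
    Real.exp_le_exp.2 (mul_le_mul_of_nonneg_right hR hT)
  calc ‖(al p a)⁻¹‖ ^ (k + 1) * ‖SS p (Gs q G k) a‖
      ≤ κ⁻¹ ^ (k + 1) * (Real.exp (R * T) * (C * (∫ t, φ t * ‖q t‖) ^ k) *
          ((∫ t, ‖p t‖) * ∫ t in Set.Icc (-T) T, φ t)) := by
        apply mul_le_mul h3 _ (norm_nonneg _) (by positivity)
        apply h1.trans
        apply mul_le_mul_of_nonneg_right _ hP
        exact mul_le_mul_of_nonneg_right h4 (by positivity)
    _ = _ := by
        rw [mul_pow, pow_succ]
        ring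

theorem UU_hasSum {a : ℂ} (ha : a.re ≠ 0) (hT : 0 ≤ T)
    (hal : ∫ t, φ t * ‖q t‖ < ‖al p a‖) :
    UU a G = ∑' k, (-1) ^ k * (al p a)⁻¹ ^ (k + 1) * SS p (Gs q G k) a := by
  have hC : 0 ≤ C := by
    have h1 := hG1 0
    have h2 := norm_nonneg (G 0)
    have h3 := hφ.one_le 0
    nlinarith
  have hQ : 0 ≤ ∫ t, φ t * ‖q t‖ :=
    integral_nonneg fun t => mul_nonneg (zero_le_one.trans (hφ.one_le t)) (norm_nonneg _)
  have hpos : 0 < ‖al p a‖ := lt_of_le_of_lt hQ hal
  have hne : al p a ≠ 0 := norm_pos_iff.1 hpos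
  have hr : ‖al p a‖⁻¹ * ∫ t, φ t * ‖q t‖ < 1 := by
    rw [inv_mul_lt_iff₀ hpos, mul_one]
    exact hal
  have hr0 : 0 ≤ ‖al p a‖⁻¹ * ∫ t, φ t * ‖q t‖ := by positivity
  have hsum : Summable fun k => (-1) ^ k * (al p a)⁻¹ ^ (k + 1) * SS p (Gs q G k) a := by
    apply Summable.of_norm_bounded _
      (term_bound hφ hf hf1 hp hp1 hp2 hq hq1 hpq hG hG1 hann (le_refl ‖a‖) hT hpos le_rfl)
    exact (summable_geometric_of_lt_one hr0 hr).mul_left _
  have hlim := hsum.hasSum.tendsto_sum_nat
  have hrem : Tendsto (fun m : ℕ => (-1) ^ m * (al p a)⁻¹ ^ m * UU a (Gs q G m)) atTop (𝓝 0) := by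
    apply squeeze_zero_norm (a := fun m : ℕ => (‖al p a‖⁻¹ * ∫ t, φ t * ‖q t‖) ^ m *
      (C * (∫ t, φ t * ‖rk a t‖) * φ 0))
    · intro m
      have h1 := UU_bound hφ ha (Gs_bound hφ hq1 hG1 m)
      rw [norm_mul, norm_mul, norm_pow, norm_neg, norm_one, one_pow, one_mul, norm_pow, norm_inv]
      calc ‖al p a‖⁻¹ ^ m * ‖UU a (Gs q G m)‖
          ≤ ‖al p a‖⁻¹ ^ m * (C * (∫ t, φ t * ‖q t‖) ^ m * (∫ t, φ t * ‖rk a t‖) * φ 0) :=
            mul_le_mul_of_nonneg_left h1 (by positivity)
        _ = _ := by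
            rw [mul_pow]
            ring
    · have := (tendsto_pow_atTop_nhds_zero_of_lt_one hr0 hr).mul_const
        (C * (∫ t, φ t * ‖rk a t‖) * φ 0)
      rwa [zero_mul] at this
  have hc : Tendsto (fun m : ℕ => UU a G) atTop
      (𝓝 ((∑' k, (-1) ^ k * (al p a)⁻¹ ^ (k + 1) * SS p (Gs q G k) a) + 0)) := by
    have h5 := hlim.add hrem
    apply h5.congr
    intro m
    exact (UU_finite hφ hf hf1 hp hp1 hp2 hq hq1 hpq hG hG1 hann ha hne m).symm
  rw [add_zero] at hc
  exact tendsto_nhds_unique tendsto_const_nhds hc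

/-- the local continuation -/
theorem local_ext {a0 : ℂ} (hT : 0 ≤ T) (hal : ∫ t, φ t * ‖q t‖ < ‖al p a0‖) :
    ∃ ε : ℝ, 0 < ε ∧ ∃ W : ℂ → ℂ, DifferentiableOn ℂ W (Metric.ball a0 ε) ∧
      ∀ a ∈ Metric.ball a0 ε, a.re ≠ 0 → UU a G = W a := by
  have hQ : 0 ≤ ∫ t, φ t * ‖q t‖ :=
    integral_nonneg fun t => mul_nonneg (zero_le_one.trans (hφ.one_le t)) (norm_nonneg _)
  obtain ⟨κ, hκ1, hκ2⟩ := exists_between hal
  have hκ : 0 < κ := lt_of_le_of_lt hQ hκ1
  have hd := differentiable_al hφ hp hp1 hp2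
  have hcont : ∀ᶠ a in 𝓝 a0, κ < ‖al p a‖ :=
    (hd.continuous.norm.continuousAt (x := a0)).eventually_const_lt hκ2
  obtain ⟨ε, hε, hball⟩ := Metric.eventually_nhds_iff_ball.1 hcont
  refine ⟨ε, hε, fun a => ∑' k, (-1) ^ k * (al p a)⁻¹ ^ (k + 1) * SS p (Gs q G k) a, ?_, ?_⟩
  · have hr : κ⁻¹ * ∫ t, φ t * ‖q t‖ < 1 := by
      rw [inv_mul_lt_iff₀ hκ, mul_one]
      exact hκ1
    have hr0 : 0 ≤ κ⁻¹ * ∫ t, φ t * ‖q t‖ := by positivity
    apply differentiableOn_tsum_of_summable_norm
      ((summable_geometric_of_lt_one hr0 hr).mul_left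
        (κ⁻¹ * (Real.exp ((‖a0‖ + ε) * T) *
          (C * ((∫ t, ‖p t‖) * ∫ t in Set.Icc (-T) T, φ t))))) _ Metric.isOpen_ball
    · intro k a ha
      apply term_bound hφ hf hf1 hp hp1 hp2 hq hq1 hpq hG hG1 hann _ hT hκ (hball a ha).le
      rw [Metric.mem_ball, dist_eq_norm] at ha
      calc ‖a‖ = ‖a0 + (a - a0)‖ := by rw [add_sub_cancel]
        _ ≤ ‖a0‖ + ‖a - a0‖ := norm_add_le _ _
        _ ≤ ‖a0‖ + ε := by linarith
    · intro k
      have h1 := differentiable_SS hφ hp hp1 hp2 (Gs_measurable hq hG k) (Gs_bound hφ hq1 hG1 k)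
      have h2 : DifferentiableOn ℂ (fun a => (al p a)⁻¹) (Metric.ball a0 ε) := by
        apply hd.differentiableOn.inv
        intro a ha
        exact norm_pos_iff.1 (hκ.trans (hball a ha))
      exact ((differentiableOn_const _).mul (h2.pow (k + 1))).mul h1.differentiableOn
  · intro a ha hre
    exact UU_hasSum hφ hf hf1 hp hp1 hp2 hq hq1 hpq hG hG1 hann hre hT (hκ1.trans (hball a ha))

end series

omit hφ in
theorem UU_eq_pos {a : ℂ} (ha : 0 < a.re) (g : ℝ → ℂ) :
    UU a g = ∫ v in Set.Ioi (0 : ℝ), g v * Complex.exp (-a * v) := by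
  unfold UU
  rw [← integral_indicator measurableSet_Ioi]
  apply integral_congr_ae
  refine ae_of_all _ fun s => ?_
  have := rk_mul_pos ha g 0 s
  simp only [add_zero, ofReal_zero, mul_zero, Complex.exp_zero, one_mul] at this
  simp only
  rw [this]
  congr 1
  funext v
  rw [mul_comm, neg_mul]

omit hφ in
theorem UU_eq_neg {a : ℂ} (ha : a.re < 0) (g : ℝ → ℂ) :
    UU a g = -∫ v in Set.Iio (0 : ℝ), g v * Complex.exp (-a * v) := by
  unfold UU
  rw [← integral_indicator measurableSet_Iio, ← integral_neg]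
  apply integral_congr_ae
  refine ae_of_all _ fun s => ?_
  have := rk_mul_neg ha g 0 s
  simp only [add_zero, ofReal_zero, mul_zero, Complex.exp_zero, one_mul] at this
  simp only
  rw [this]
  congr 2
  funext v
  rw [mul_comm, neg_mul]

theorem diff_pos {g : ℝ → ℂ} {C : ℝ} (hg : Measurable g) (hg1 : ∀ t, ‖g t‖ ≤ C * φ t) :
    DifferentiableOn ℂ (fun w : ℂ => ∫ v in Set.Ioi (0 : ℝ), g v * Complex.exp (w * v))
      {w : ℂ | w.re < 0} := by
  apply differentiableOn_exp_integral hg.aestronglyMeasurable measurable_id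
    (isOpen_lt Complex.continuous_re continuous_const)
  intro w hw
  have hw' : 0 < (-w).re := by simpa using hw
  have := integrableOn_pos hφ hw' hg hg1 0
  apply this.congr
  refine ae_of_all _ fun v => ?_
  simp only [neg_mul, neg_neg, id_eq]
  ring

theorem diff_neg {g : ℝ → ℂ} {C : ℝ} (hg : Measurable g) (hg1 : ∀ t, ‖g t‖ ≤ C * φ t) :
    DifferentiableOn ℂ (fun w : ℂ => ∫ v in Set.Iio (0 : ℝ), g v * Complex.exp (w * v))
      {w : ℂ | 0 < w.re} := by
  apply differentiableOn_exp_integral hg.aestronglyMeasurable measurable_id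
    (isOpen_lt continuous_const Complex.continuous_re)
  intro w hw
  have hw' : (-w).re < 0 := by simpa using hw
  have := integrableOn_neg hφ hw' hg hg1 0
  apply this.congr
  refine ae_of_all _ fun v => ?_
  simp only [neg_mul, neg_neg, id_eq]
  ring

theorem UU_diff {g : ℝ → ℂ} {C : ℝ} (hg : Measurable g) (hg1 : ∀ t, ‖g t‖ ≤ C * φ t) {a : ℂ}
    (ha : a.re ≠ 0) : DifferentiableAt ℂ (fun a => UU a g) a := by
  have hneg : DifferentiableAt ℂ (fun a : ℂ => -a) a := differentiableAt_id.neg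
  rcases lt_or_gt_of_ne ha with ha | ha
  · have h1 := (diff_neg hφ hg hg1).differentiableAt
      ((isOpen_lt continuous_const Complex.continuous_re).mem_nhds
        (show (-a) ∈ {w : ℂ | 0 < w.re} by simpa using ha))
    have h2 := (h1.comp a hneg).neg
    apply h2.congr_of_eventuallyEq
    have : ∀ᶠ b : ℂ in 𝓝 a, b.re < 0 :=
      (isOpen_lt Complex.continuous_re continuous_const).mem_nhds ha
    filter_upwards [this] with b hb
    exact UU_eq_neg hb g
  · have h1 := (diff_pos hφ hg hg1).differentiableAt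
      ((isOpen_lt Complex.continuous_re continuous_const).mem_nhds
        (show (-a) ∈ {w : ℂ | w.re < 0} by simpa using ha))
    have h2 := h1.comp a hneg
    apply h2.congr_of_eventuallyEq
    have : ∀ᶠ b : ℂ in 𝓝 a, 0 < b.re :=
      (isOpen_lt continuous_const Complex.continuous_re).mem_nhds ha
    filter_upwards [this] with b hb
    exact UU_eq_pos hb g

omit hφ in
/-- a measurable representative -/
theorem rep {G : ℝ → ℂ} (hG : LInf φ G) (hφ : IsWeight φ) :
    ∃ (G' : ℝ → ℂ) (C : ℝ), Measurable G' ∧ (∀ t, ‖G' t‖ ≤ C * φ t) ∧ G' =ᵐ[volume] G := by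
  obtain ⟨hm, C, hC⟩ := hG
  have m1 : Measurable (hm.mk G) := hm.stronglyMeasurable_mk.measurable
  have m2 : MeasurableSet {t | ‖hm.mk G t‖ ≤ C * φ t} :=
    measurableSet_le m1.norm (hφ.meas.const_mul C)
  refine ⟨{t | ‖hm.mk G t‖ ≤ C * φ t}.indicator (hm.mk G), |C|, m1.indicator m2, ?_, ?_⟩
  · intro t
    have hp : 0 ≤ φ t := zero_le_one.trans (hφ.one_le t)
    by_cases h : t ∈ {t | ‖hm.mk G t‖ ≤ C * φ t}
    · rw [Set.indicator_of_mem h]
      have h' : ‖hm.mk G t‖ ≤ C * φ t := h
      exact h'.trans (mul_le_mul_of_nonneg_right (le_abs_self C) hp)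
    · rw [Set.indicator_of_notMem h, norm_zero]
      positivity
  · filter_upwards [hm.ae_eq_mk, hC] with t h1 h2
    rw [Set.indicator_of_mem]
    · exact h1.symm
    · show ‖hm.mk G t‖ ≤ C * φ t
      rw [← h1]
      exact h2

/-- truncation -/
theorem exists_trunc {f : ℝ → ℂ} (hf : Measurable f) (hf1 : Integrable (fun t => φ t * ‖f t‖))
    {δ : ℝ} (hδ : 0 < δ) : ∃ T : ℝ, 0 ≤ T ∧ ∃ p q : ℝ → ℂ, Measurable p ∧
      Integrable (fun t => φ t * ‖p t‖) ∧ (∀ t, T < |t| → p t = 0) ∧ Measurable q ∧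
      Integrable (fun t => φ t * ‖q t‖) ∧ (∀ t, q t = f t - p t) ∧ ∫ t, φ t * ‖q t‖ < δ := by
  have hmeas : ∀ n : ℕ, MeasurableSet {t : ℝ | (n : ℝ) < |t|} := fun n =>
    measurableSet_lt measurable_const (by fun_prop)
  have hanti : Antitone (fun n : ℕ => {t : ℝ | (n : ℝ) < |t|}) := by
    intro m n hmn t ht
    have h1 : (m : ℝ) ≤ n := by exact_mod_cast hmn
    exact lt_of_le_of_lt h1 ht
  have hlim := tendsto_setIntegral_of_antitone hmeas hanti (f := fun t => φ t * ‖f t‖)
    (μ := volume) ⟨0, hf1.integrableOn⟩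
  have hempty : (⋂ n : ℕ, {t : ℝ | (n : ℝ) < |t|}) = ∅ := by
    rw [Set.eq_empty_iff_forall_notMem]
    intro t ht
    obtain ⟨n, hn⟩ := exists_nat_ge |t|
    have := Set.mem_iInter.1 ht n
    exact absurd (lt_of_le_of_lt hn this) (lt_irrefl _)
  rw [hempty, setIntegral_empty] at hlim
  obtain ⟨n, hn⟩ := (hlim.eventually_lt_const hδ).exists
  have hmf : ∀ A : Set ℝ, MeasurableSet A →
      Integrable (fun t => φ t * ‖A.indicator f t‖) := by
    intro A hA
    have := hf1.indicator hA
    apply this.congr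
    refine ae_of_all _ fun t => ?_
    by_cases h : t ∈ A
    · simp [Set.indicator_of_mem h]
    · simp [Set.indicator_of_notMem h]
  refine ⟨n, Nat.cast_nonneg n, {t : ℝ | (n : ℝ) < |t|}ᶜ.indicator f,
    {t : ℝ | (n : ℝ) < |t|}.indicator f, hf.indicator (hmeas n).compl, hmf _ (hmeas n).compl, ?_,
    hf.indicator (hmeas n), hmf _ (hmeas n), ?_, ?_⟩
  · intro t ht
    rw [Set.indicator_of_notMem]
    simpa using ht
  · intro t
    by_cases h : t ∈ {t : ℝ | (n : ℝ) < |t|}
    · rw [Set.indicator_of_mem h, Set.indicator_of_notMem (by simpa using h), sub_zero]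
    · rw [Set.indicator_of_notMem h, Set.indicator_of_mem (by simpa using h), sub_self]
  · have e : ∀ t, φ t * ‖{t : ℝ | (n : ℝ) < |t|}.indicator f t‖ =
        {t : ℝ | (n : ℝ) < |t|}.indicator (fun t => φ t * ‖f t‖) t := by
      intro t
      by_cases h : t ∈ {t : ℝ | (n : ℝ) < |t|}
      · simp [Set.indicator_of_mem h]
      · simp [Set.indicator_of_notMem h]
    simp only [e]
    rw [integral_indicator (hmeas n)]
    exact hn

end weighted

/-- the continuation near a point which is not in the spectrum -/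
theorem ext_at (hBip : BipolarStmt) {φ : ℝ → ℝ} (hφ : IsWeight φ) {G G' : ℝ → ℂ} {C : ℝ}
    (hG : LInf φ G) (hG' : Measurable G') (hG1 : ∀ t, ‖G' t‖ ≤ C * φ t) (hae : G' =ᵐ[volume] G)
    {x : ℝ} (hx : x ∉ Spec φ G) : ∃ ε : ℝ, 0 < ε ∧ ∃ W : ℂ → ℂ,
      DifferentiableOn ℂ W (Metric.ball (-(I * x)) ε) ∧
      ∀ a ∈ Metric.ball (-(I * x)) ε, a.re ≠ 0 → UU a G' = W a := by
  have hL : LInf φ (expR x) := by
    refine ⟨?_, 1, ?_⟩
    · apply Measurable.aestronglyMeasurable
      unfold expR
      fun_prop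
    · refine ae_of_all _ fun t => ?_
      have : ‖expR x t‖ = 1 := by
        unfold expR
        rw [Complex.norm_exp]
        simp
      rw [this, one_mul]
      exact hφ.one_le t
  have h1 : ¬ (expR x ∈ B φ G) := hx
  rw [hBip φ hφ G (expR x) hG hL] at h1
  push Not at h1
  obtain ⟨f, hf, hann, hne⟩ := h1
  obtain ⟨hfm, hf1⟩ := hf
  -- measurable representatives
  obtain ⟨f', hf'⟩ : ∃ f' : ℝ → ℂ, f' = hfm.mk f := ⟨_, rfl⟩
  have hf'm : Measurable f' := by
    rw [hf']
    exact hfm.stronglyMeasurable_mk.measurable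
  have hfae : f' =ᵐ[volume] f := by
    rw [hf']
    exact hfm.ae_eq_mk.symm
  have hf'1 : Integrable (fun t => φ t * ‖f' t‖) := by
    apply hf1.congr
    filter_upwards [hfae] with t ht
    rw [ht]
  have hann' : ∀ s, ∫ t, f' t * G' (t + s) = 0 := by
    intro s
    rw [← hann s]
    apply integral_congr_ae
    have h2 : (fun t => G' (t + s)) =ᵐ[volume] fun t => G (t + s) :=
      (measurePreserving_add_right volume s).quasiMeasurePreserving.ae_eq_comp hae
    filter_upwards [hfae, h2] with t h3 h4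
    rw [h3, h4]
  have hne' : ∫ t, f' t * expR x t ≠ 0 := by
    have : ∫ t, f' t * expR x t = ∫ t, f t * expR x t := by
      apply integral_congr_ae
      filter_upwards [hfae] with t ht
      rw [ht]
    rw [this]
    exact hne
  have hδ : 0 < ‖∫ t, f' t * expR x t‖ / 2 := half_pos (norm_pos_iff.2 hne')
  obtain ⟨T, hT, p, q, hp, hp1, hp2, hq, hq1, hpq, hlt⟩ := exists_trunc hφ hf'm hf'1 hδ
  have hal : ∫ t, φ t * ‖q t‖ < ‖al p (-(I * x))‖ := by
    have e1 : al p (-(I * x)) = ∫ t, p t * expR x t := by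
      unfold al expR
      apply integral_congr_ae
      refine ae_of_all _ fun t => ?_
      simp only
      congr 2
      ring
    have i1 : Integrable (fun t => p t * expR x t) := by
      have := integrable_al hφ hp hp1 hp2 (-(I * x))
      apply this.congr
      refine ae_of_all _ fun t => ?_
      simp only [expR]
      congr 2
      ring
    have hn : ∀ t, ‖expR x t‖ = 1 := by
      intro t
      unfold expR
      rw [Complex.norm_exp]
      simp
    have i2 : Integrable (fun t => q t * expR x t) := by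
      apply (integrable_norm_p hφ hq hq1).mono'
      · apply Measurable.aestronglyMeasurable
        unfold expR
        exact hq.mul (by fun_prop)
      · refine ae_of_all _ fun t => ?_
        rw [norm_mul, hn, mul_one]
    have e2 : ∫ t, f' t * expR x t = (∫ t, p t * expR x t) + ∫ t, q t * expR x t := by
      rw [← integral_add i1 i2]
      apply integral_congr_ae
      refine ae_of_all _ fun t => ?_
      simp only
      rw [hpq]
      ring
    have e3 : ‖∫ t, q t * expR x t‖ ≤ ∫ t, φ t * ‖q t‖ := by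
      apply norm_integral_le_of_norm_le hq1
      refine ae_of_all _ fun t => ?_
      rw [norm_mul, hn, mul_one]
      have := hφ.one_le t
      have := norm_nonneg (q t)
      nlinarith
    have e4 : ‖∫ t, f' t * expR x t‖ ≤ ‖∫ t, p t * expR x t‖ + ‖∫ t, q t * expR x t‖ := by
      rw [e2]
      exact norm_add_le _ _
    rw [e1]
    linarith
  exact local_ext hφ hf'm hf'1 hp hp1 hp2 hq hq1 hpq hG' hG1 hann' hT hal

/-- **The Carleman transform is analytic off the spectrum.** -/
theorem line (hBip : BipolarStmt) : LineStmt := by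
  intro φ hφ G hG
  obtain ⟨G', C, hG', hG1, hae⟩ := rep hG hφ
  obtain ⟨K0, hK0⟩ : ∃ K0 : ℂ → ℂ, K0 = fun z => UU (-(I * z)) G' := ⟨_, rfl⟩
  have hre : ∀ z : ℂ, (-(I * z)).re = z.im := by
    intro z
    simp
  have hlin : ∀ z : ℂ, DifferentiableAt ℂ (fun z : ℂ => -(I * z)) z := fun z =>
    (differentiableAt_id.const_mul I).neg
  refine ⟨fun z => if z.im = 0 then limUnder (𝓝[>] (0 : ℝ)) (fun y : ℝ => K0 (z + I * y))
    else K0 z, ?_, ?_, ?_⟩
  · intro z0 hz0
    apply DifferentiableAt.differentiableWithinAt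
    by_cases him : z0.im = 0
    · -- a real point outside the spectrum
      obtain ⟨x, hx⟩ : ∃ x : ℝ, z0 = x := ⟨z0.re, Complex.ext rfl (by simpa using him)⟩
      have hxs : x ∉ Spec φ G := fun h => hz0 x h hx
      obtain ⟨ε, hε, W, hW, hWe⟩ := ext_at hBip hφ hG hG' hG1 hae hxs
      have hmem : ∀ z : ℂ, z ∈ Metric.ball z0 ε → -(I * z) ∈ Metric.ball (-(I * (x : ℂ))) ε := by
        intro z hz
        rw [Metric.mem_ball, dist_eq_norm] at hz ⊢
        have : -(I * z) - -(I * (x : ℂ)) = -(I * (z - z0)) := by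
          rw [hx]
          ring
        rw [this, norm_neg, norm_mul, Complex.norm_I, one_mul]
        exact hz
      have hWd : DifferentiableAt ℂ (fun z => W (-(I * z))) z0 := by
        have h1 : DifferentiableAt ℂ W (-(I * z0)) :=
          hW.differentiableAt (Metric.isOpen_ball.mem_nhds (hmem z0 (Metric.mem_ball_self hε)))
        exact h1.comp z0 (hlin z0)
      apply hWd.congr_of_eventuallyEq
      filter_upwards [Metric.ball_mem_nhds z0 hε] with z hz
      split_ifs with h2
      · -- the limit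
        have hcont : ContinuousAt (fun z => W (-(I * z))) z := by
          have h1 : DifferentiableAt ℂ W (-(I * z)) :=
            hW.differentiableAt (Metric.isOpen_ball.mem_nhds (hmem z hz))
          exact (h1.comp z (hlin z)).continuousAt
        have hpath : Tendsto (fun y : ℝ => z + I * (y : ℂ)) (𝓝[>] 0) (𝓝 z) := by
          have : ContinuousAt (fun y : ℝ => z + I * (y : ℂ)) 0 := by fun_prop
          have h3 := this.tendsto
          simp only [ofReal_zero, mul_zero, add_zero] at h3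
          exact h3.mono_left nhdsWithin_le_nhds
        have h4 : Tendsto (fun y : ℝ => K0 (z + I * y)) (𝓝[>] 0) (𝓝 (W (-(I * z)))) := by
          apply (hcont.tendsto.comp hpath).congr'
          have h5 : ∀ᶠ y : ℝ in 𝓝[>] 0, z + I * (y : ℂ) ∈ Metric.ball z0 ε :=
            hpath (Metric.isOpen_ball.mem_nhds hz)
          filter_upwards [h5, self_mem_nhdsWithin] with y h6 h7
          simp only [Function.comp_apply]
          rw [hK0]
          simp only
          symm
          apply hWe _ (hmem _ h6)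
          rw [hre]
          simp only [Complex.add_im, Complex.mul_im, Complex.I_re, Complex.I_im, ofReal_im,
            ofReal_re, zero_mul, one_mul, zero_add, h2]
          exact (ne_of_gt h7)
        exact h4.limUnder_eq
      · rw [hK0]
        simp only
        apply hWe _ (hmem z hz)
        rw [hre]
        exact h2
    · have h1 : DifferentiableAt ℂ K0 z0 := by
        rw [hK0]
        have h2 := UU_diff hφ hG' hG1 (a := -(I * z0)) (by rw [hre]; exact him)
        have h3 : DifferentiableAt ℂ ((fun a => UU a G') ∘ fun z : ℂ => -(I * z)) z0 :=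
          DifferentiableAt.comp z0 h2 (hlin z0)
        exact h3
      apply h1.congr_of_eventuallyEq
      have h3 : ∀ᶠ z : ℂ in 𝓝 z0, z.im ≠ 0 :=
        (isOpen_ne_fun Complex.continuous_im continuous_const).mem_nhds him
      filter_upwards [h3] with z hz
      rw [if_neg hz]
  · intro z hz
    simp only
    rw [if_neg hz.ne', hK0]
    simp only
    rw [UU_eq_pos (by rw [hre]; exact hz)]
    apply integral_congr_ae
    have h1 : ∀ᵐ t ∂(volume.restrict (Set.Ioi (0 : ℝ))), G' t = G t := ae_restrict_of_ae hae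
    filter_upwards [h1] with t ht
    rw [ht, neg_neg]
  · intro z hz
    simp only
    rw [if_neg hz.ne, hK0]
    simp only
    rw [UU_eq_neg (by rw [hre]; exact hz)]
    congr 1
    apply integral_congr_ae
    have h1 : ∀ᵐ t ∂(volume.restrict (Set.Iio (0 : ℝ))), G' t = G t := ae_restrict_of_ae hae
    filter_upwards [h1] with t ht
    rw [ht, neg_neg]

end

end Pool.Agent.Helper15_E
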