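import Pool.Agent.Helper15_E.Pos3

/-!
# MP_7d2497_an, module POS: the positive direction
-/

namespace Pool.Agent.H78E

open MeasureTheory Filter Topology Complex

noncomputable section

namespace H15

theorem repX_tr {l : X →L[ℂ] ℂ} {h : ℝ → ℂ} (hr : RepX l h) (s : ℝ) (f : X) :
    l (tr s f) = ∫ t : ℝ, (f : ℝ → ℂ) t * h (t + s) := by
  rw [hr]
  have h1 : ∫ t : ℝ, (tr s f : ℝ → ℂ) t * h t
      = ∫ t : ℝ, (f : ℝ → ℂ) (t - s) * h (t - s + s) := by
    apply integral_congr_ae
    filter_upwards [tr_coe s f] with t ht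
    rw [ht, sub_add_cancel]
  rw [h1]
  exact integral_sub_right_eq_self (fun t => (f : ℝ → ℂ) t * h (t + s)) s

theorem isClosed_image_ofReal {C : Set ℝ} (hC : IsClosed C) :
    IsClosed ((fun x : ℝ => (x : ℂ)) '' C) :=
  Complex.isometry_ofReal.isClosedEmbedding.isClosedMap C hC

/-- the identity of the two transforms off the hull -/
theorem transform_eq (hBi : BipolarStmt) (hLine : LineStmt) (hL : LapuStmt) (hR : ResidStmt)
    (hA : AlgStmt) (hD : DensStmt) {φ : ℝ → ℝ} (hφ : IsWeight φ) {l : Y →L[ℂ] ℂ} {G : ℝ → ℂ}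
    (hGl : Rep l G) (hGm : Measurable G) {CG : ℝ} (hCG : ∀ t, ‖G t‖ ≤ CG) {C : Set ℝ}
    (hC : IsClosed C) (hCc : C.Countable)
    (hhull : ∀ z : ℂ, z ∈ (ann l).hull ↔ z ∈ (fun x : ℝ => (x : ℂ)) '' C)
    (hSC : Spec φ G ⊆ C) {s : ℝ} (hs : 0 ≤ s) :
    ∃ K : ℂ → ℂ, (∀ z : ℂ, (∀ x ∈ Spec φ G, z ≠ (x : ℂ)) → DifferentiableAt ℂ K z) ∧
      ∀ z : ℂ, z ∉ (ann l).hull →
        ((kq l).comp ((ann l).S.T s)) ((ann l).q z) = K z := by
  have hG : LInf φ G := linf_of_bounded hφ hGm.aestronglyMeasurable hCG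
  have hGsm : Measurable (fun t => G (t + s)) := hGm.comp (measurable_add_const s)
  have hGs : LInf φ (fun t => G (t + s)) :=
    linf_of_bounded hφ hGsm.aestronglyMeasurable (fun t => hCG (t + s))
  obtain ⟨K, hK1, hK2, _⟩ := hLine φ hφ _ hGs
  rw [Spec_shift hφ hBi hG hGs] at hK1
  have hopen : IsOpen {z : ℂ | ∀ x ∈ Spec φ G, z ≠ (x : ℂ)} := by
    have h1 : {z : ℂ | ∀ x ∈ Spec φ G, z ≠ (x : ℂ)} = ((fun x : ℝ => (x : ℂ)) '' Spec φ G)ᶜ := by
      ext z
      simp only [Set.mem_ofPred_eq, Set.mem_compl_iff, Set.mem_image, not_exists, not_and]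
      constructor
      · intro h x hx he
        exact h x hx he.symm
      · intro h x hx he
        exact h x hx he.symm
    rw [h1]
    exact (isClosed_image_ofReal (isClosed_Spec hφ hBi hG)).isOpen_compl
  refine ⟨K, fun z hz => hK1.differentiableAt (hopen.mem_nhds hz), ?_⟩
  set Ω : Set ℂ := ((fun x : ℝ => (x : ℂ)) '' C)ᶜ with hΩ
  have hΩo : IsOpen Ω := (isClosed_image_ofReal hC).isOpen_compl
  have hΩc : IsPreconnected Ω := by
    have h1 : IsPathConnected Ω := Set.Countable.isPathConnected_compl_of_one_lt_rank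
      (by rw [Complex.rank_real_complex]; norm_num) (hCc.image _)
    exact h1.isConnected.isPreconnected
  set ψ : ℂ → ℂ := fun z => ((kq l).comp ((ann l).S.T s)) ((ann l).q z) with hψ
  have hψd : DifferentiableOn ℂ ψ Ω := by
    intro z hz
    have hz' : z ∉ (ann l).hull := fun h => hz ((hhull z).mp h)
    have h1 := (ann l).q_differentiableAt ((ann l).D_unit hL hR hA hD hz')
    exact (((kq l).comp ((ann l).S.T s)).differentiableAt.comp z h1).differentiableWithinAt
  have hKd : DifferentiableOn ℂ K Ω := by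
    apply hK1.mono
    intro z hz x hx he
    exact hz ⟨x, hSC hx, he.symm⟩
  have hrep : Rep (l.comp (YT s)) (fun t => G (t + s)) := by
    intro f
    exact rep_shift hGl hs f
  have hup : ∀ z : ℂ, 0 < z.im → ψ z = K z := by
    intro z hz
    have h1 : ψ z = (l.comp (YT s)) (ez (-z)) := by
      change kq l ((ann l).S.T s ((ann l).q z)) = l (YT s (ez (-z)))
      rw [(ann l).q_pos hL hR hz, ← (ann l).qm_T hs, kq_qm]
    rw [h1, rep_ez hrep (by simpa using hz), hK2 z hz]
    apply setIntegral_congr_fun measurableSet_Ioi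
    intro t _
    simp only
    congr 2
    ring
  have hI : Complex.I ∈ Ω := by
    rintro ⟨x, _, hx⟩
    have := congrArg Complex.im hx
    simp at this
  have heq := AnalyticOnNhd.eqOn_of_preconnected_of_eventuallyEq (hψd.analyticOnNhd hΩo)
    (hKd.analyticOnNhd hΩo) hΩc hI (by
      have h1 : IsOpen {z : ℂ | 0 < z.im} := isOpen_lt continuous_const Complex.continuous_im
      filter_upwards [h1.mem_nhds (show (0 : ℝ) < Complex.I.im by simp)] with z hz
      exact hup z hz)
  intro z hz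
  exact heq (fun h => hz ((hhull z).mpr h))

end H15

open H15

/-- POS -/
theorem pos (hDu : DualStmt) (hBi : BipolarStmt) (hBP : BipolarPosStmt) (hRi : RieszStmt)
    (hUl : UltraStmt) (hLine : LineStmt) (hL : LapuStmt) (hR : ResidStmt) (hA : AlgStmt)
    (hD : DensStmt) : PosStmt := by
  rintro φ hφ ⟨C0, hb⟩ L hLc g hg hne hs hsub
  obtain ⟨l, hl⟩ := exists_functional hφ hb hg
  obtain ⟨U, hU, hI⟩ := hUl
  have hspec := specPos_eq hφ hb hBP hg hl
  rw [hspec] at hne hsub ⊢
  set C : Set ℝ := {x : ℝ | (x : ℂ) ∈ (ann l).hull} with hCdef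
  have hC : IsClosed C := isClosed_hull_real l
  have hhull : ∀ z : ℂ, z ∈ (ann l).hull → ∃ x ∈ C, z = (x : ℂ) := by
    intro z hz
    obtain ⟨x, _, rfl⟩ := hsub hz
    exact ⟨x, hz, rfl⟩
  have hCL : C ⊆ L := by
    intro x hx
    obtain ⟨y, hy, hxy⟩ := hsub hx
    rwa [← Complex.ofReal_injective hxy]
  have hCc : C.Countable := hLc C hCL hC
  have hhull' : ∀ z : ℂ, z ∈ (ann l).hull ↔ z ∈ (fun x : ℝ => (x : ℂ)) '' C := by
    intro z
    constructor
    · intro hz
      obtain ⟨x, hx, rfl⟩ := hhull z hz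
      exact ⟨x, hx, rfl⟩
    · rintro ⟨x, hx, rfl⟩
      exact hx
  have hlP : l = P U l := mean_eq hDu hBP hRi hL hR hA hD hφ hb hg hs hl hC hCc hhull hne hU hI
  -- the extension
  obtain ⟨Cg, hCg⟩ := bounded_of_linfPos hφ hb hg
  obtain ⟨lX, hlX, _⟩ := exists_repX g hg.1.1 Cg hCg
  have hlXl : ∀ f : Y, lX (f : X) = l f := by
    intro f
    rw [hlX, hl]
  obtain ⟨M, hM⟩ := exists_ulim U (fun s => lX.comp (tr s).toContinuousLinearMap) ‖lX‖ (by
    intro s x
    change ‖lX (tr s x)‖ ≤ _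
    refine (lX.le_opNorm _).trans ?_
    rw [LinearIsometry.norm_map])
  have hM' : ∀ x, Tendsto (fun s => lX (tr s x)) U (𝓝 (M x)) := hM
  obtain ⟨G, hGm, ⟨CG, hCG⟩, hGr⟩ := hDu M
  have hMl : ∀ f : Y, M (f : X) = l f := by
    intro f
    rw [hlP]
    symm
    apply P_eq
    refine (hM' (f : X)).congr' ?_
    filter_upwards [ev_nonneg hU 0] with t ht
    rw [← YT_coe ht, hlXl]
  have hlG : Rep l G := by
    intro f
    rw [← hMl f]
    exact hGr _
  have hGL : LInf φ G := linf_of_bounded hφ hGm.aestronglyMeasurable hCG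
  have hSC : Spec φ G ⊆ C := by
    intro x hx
    rw [mem_Spec_iff hφ hBi hGL] at hx
    refine ⟨by simp, fun F hF => ?_⟩
    obtain ⟨f, hf1, hf2, hf3⟩ := ofY hφ hb F
    have h1 := hx f hf1 (by
      intro s
      have h2 : ∫ t : ℝ, f t * G (t + s) = M (tr s (F : X)) := by
        rw [repX_tr hGr]
        apply integral_congr_ae
        filter_upwards [hf3] with t ht
        rw [ht]
      rw [h2]
      refine tendsto_nhds_unique (hM' _) (Tendsto.congr' ?_ tendsto_const_nhds)
      filter_upwards [ev_nonneg hU (-s)] with t ht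
      have ht' : 0 ≤ t + s := by linarith
      rw [← tr_add, ← YT_coe ht', hlXl]
      exact (hF _ ht').symm)
    rw [chi_rep (by simp) F, ← h1]
    apply integral_congr_ae
    filter_upwards [hf3] with t ht
    rw [ht]
    by_cases h0 : t < 0
    · rw [hf2 t h0, zero_mul, zero_mul]
    · congr 1
      unfold expPos expR
      rw [if_pos (not_lt.mp h0)]
  have hCS : C ⊆ Spec φ G := by
    by_contra hcon
    have hWne : (C \ Spec φ G).Nonempty := by
      rw [Set.not_subset] at hcon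
      obtain ⟨x, h1, h2⟩ := hcon
      exact ⟨x, h1, h2⟩
    obtain ⟨x0, hx0, δ1, hδ1, hiso1⟩ := exists_isolated hC hCc Set.diff_subset hWne
    have hSo : IsOpen (Spec φ G)ᶜ := (isClosed_Spec hφ hBi hGL).isOpen_compl
    obtain ⟨δ2, hδ2, hiso2⟩ := Metric.isOpen_iff.mp hSo x0 hx0.2
    have hfar : ∀ x : ℝ, x ∈ Spec φ G → δ2 ≤ |x - x0| := by
      intro x hx
      by_contra hlt
      push Not at hlt
      exact hiso2 (by rw [Metric.mem_ball, Real.dist_eq]; exact hlt) hx
    have hδ : 0 < min δ1 δ2 := lt_min hδ1 hδ2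
    have hreal : ∀ x : ℝ, ‖(x : ℂ) - (x0 : ℂ)‖ = |x - x0| := by
      intro x
      rw [← Complex.ofReal_sub, Complex.norm_real, Real.norm_eq_abs]
    have hiso : ∀ z ∈ (ann l).hull, ‖z - (x0 : ℂ)‖ < min δ1 δ2 → z = (x0 : ℂ) := by
      intro z hz hlt
      obtain ⟨x, hx, rfl⟩ := hhull z hz
      rw [hreal] at hlt
      have hxS : x ∉ Spec φ G := by
        intro hxS
        exact absurd (hfar x hxS) (not_le.mpr (lt_of_lt_of_le hlt (min_le_right _ _)))
      rw [hiso1 x ⟨hx, hxS⟩ (lt_of_lt_of_le hlt (min_le_left _ _))]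
    obtain ⟨e, _, _, he2, _, he4⟩ := riesz hRi hL hR hA hD (ann l) hδ hx0.1 hiso
    obtain ⟨f', hf'⟩ := (ann l).qm_surj (e ((ann l).qm rr))
    have hmem : f' ∈ (ann l).I := by
      intro s hs0
      obtain ⟨K, hK1, hK2⟩ := transform_eq hBi hLine hL hR hA hD hφ hlG hGm hCG hC hCc hhull' hSC hs0
      have h1 := he4 ((kq l).comp ((ann l).S.T s)) K (by
        intro z hz
        apply hK1
        intro x hx he
        rw [he, hreal] at hz
        exact absurd (hfar x hx) (not_le.mpr (lt_of_lt_of_le hz (min_le_right _ _)))) (by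
        intro z hz hzx
        apply hK2
        intro hzh
        exact hzx (hiso z hzh hz))
      rw [← hf'] at h1
      have h2 : ((kq l).comp ((ann l).S.T s)) ((ann l).qm f') = l (YT s f') := by
        change kq l ((ann l).S.T s ((ann l).qm f')) = _
        rw [← (ann l).qm_T hs0, kq_qm]
      rw [← h2]
      exact h1
    have h3 := hx0.1.2 f' hmem
    rw [he2 rr f' hf'] at h3
    exact chi_rr_ne (by simp) h3
  have hSpec : Spec φ G = C := Set.Subset.antisymm hSC hCS
  refine ⟨G, hGL, ?_, ?_⟩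
  · have h1 := rep_unique (C := max CG Cg) hlG hl hGm.aestronglyMeasurable hg.1.1
      (Eventually.of_forall fun t _ => (hCG t).trans (le_max_left _ _))
      (hCg.mono fun t ht _ => ht.trans (le_max_right _ _))
    exact h1
  · rw [hSpec]
    ext z
    exact (hhull' z).symm

end

end Pool.Agent.H78E
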