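import Pool.Agent.Helper78_E.Stmts3

/-!
# MP_7d2497_an, module POS, part 1: averaging along an idempotent ultrafilter
-/

namespace Pool.Agent.H78E

open MeasureTheory Filter Topology Complex

noncomputable section

namespace H15

/-- limit along an ultrafilter -/
def ul (U : Ultrafilter ℝ) (F : ℝ → ℂ) : ℂ := limUnder (U : Filter ℝ) F

theorem tendsto_ul (U : Ultrafilter ℝ) {F : ℝ → ℂ} {C : ℝ} (hF : ∀ t, ‖F t‖ ≤ C) :
    Tendsto F U (𝓝 (ul U F)) := by
  have hc : IsCompact (Metric.closedBall (0 : ℂ) C) := isCompact_closedBall 0 C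
  have hle : ((U.map F : Ultrafilter ℂ) : Filter ℂ) ≤ 𝓟 (Metric.closedBall (0 : ℂ) C) := by
    rw [Filter.le_principal_iff]
    change F ⁻¹' _ ∈ (U : Filter ℝ)
    apply Filter.univ_mem'
    intro t
    simpa using hF t
  obtain ⟨x, _, hx⟩ := hc.ultrafilter_le_nhds _ hle
  exact tendsto_nhds_limUnder ⟨x, hx⟩

section
variable {E : Type} [NormedAddCommGroup E] [NormedSpace ℂ E]

theorem exists_ulim (U : Ultrafilter ℝ) (A : ℝ → E →L[ℂ] ℂ) (C : ℝ)
    (hA : ∀ s x, ‖A s x‖ ≤ C * ‖x‖) :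
    ∃ B : E →L[ℂ] ℂ, ∀ x, Tendsto (fun s => A s x) U (𝓝 (B x)) := by
  have ht : ∀ x, Tendsto (fun s => A s x) U (𝓝 (ul U (fun s => A s x))) :=
    fun x => tendsto_ul U (fun s => hA s x)
  let L : E →ₗ[ℂ] ℂ :=
    { toFun := fun x => ul U (fun s => A s x)
      map_add' := by
        intro x y
        have h1 := ht (x + y)
        have h2 := (ht x).add (ht y)
        simp only [map_add] at h1
        have h3 := tendsto_nhds_unique h1 h2
        simp only [map_add]
        exact h3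
      map_smul' := by
        intro c x
        have h1 := ht (c • x)
        have h2 := (ht x).const_smul c
        simp only [map_smul] at h1
        have h3 := tendsto_nhds_unique h1 h2
        simp only [map_smul, RingHom.id_apply]
        exact h3 }
  have hL : ∀ x, ‖L x‖ ≤ C * ‖x‖ := by
    intro x
    exact le_of_tendsto (ht x).norm (Eventually.of_forall fun s => hA s x)
  exact ⟨L.mkContinuous C hL, fun x => ht x⟩

end

theorem YT_norm (s : ℝ) (f : Y) : ‖YT s f‖ ≤ ‖f‖ := by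
  change ‖((YT s f : Y) : X)‖ ≤ ‖(f : X)‖
  have : ((YT s f : Y) : X) = tr (max s 0) (f : X) := rfl
  rw [this, LinearIsometry.norm_map]

theorem YT_add {s t : ℝ} (hs : 0 ≤ s) (ht : 0 ≤ t) (f : Y) : YT (s + t) f = YT s (YT t f) :=
  YS.add s t hs ht f

/-- the mean of `k` along `U` -/
theorem exists_P (U : Ultrafilter ℝ) (k : Y →L[ℂ] ℂ) : ∃ B : Y →L[ℂ] ℂ, ∀ f,
    Tendsto (fun s => k (YT s f)) U (𝓝 (B f)) := by
  obtain ⟨B, hB⟩ := exists_ulim U (fun s => k.comp (YT s)) ‖k‖ (by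
    intro s x
    rw [ContinuousLinearMap.comp_apply]
    exact (k.le_opNorm _).trans (mul_le_mul_of_nonneg_left (YT_norm s x)
      (ContinuousLinearMap.opNorm_nonneg k)))
  exact ⟨B, hB⟩

def P (U : Ultrafilter ℝ) (k : Y →L[ℂ] ℂ) : Y →L[ℂ] ℂ := (exists_P U k).choose

theorem P_spec (U : Ultrafilter ℝ) (k : Y →L[ℂ] ℂ) (f : Y) :
    Tendsto (fun s => k (YT s f)) U (𝓝 (P U k f)) := (exists_P U k).choose_spec f

theorem P_eq {U : Ultrafilter ℝ} {k : Y →L[ℂ] ℂ} {f : Y} {c : ℂ}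
    (h : Tendsto (fun s => k (YT s f)) U (𝓝 c)) : P U k f = c :=
  tendsto_nhds_unique (P_spec U k f) h

theorem P_sub (U : Ultrafilter ℝ) (k1 k2 : Y →L[ℂ] ℂ) : P U (k1 - k2) = P U k1 - P U k2 := by
  ext f
  exact P_eq ((P_spec U k1 f).sub (P_spec U k2 f))

theorem P_smul (U : Ultrafilter ℝ) (c : ℂ) (k : Y →L[ℂ] ℂ) : P U (c • k) = c • P U k := by
  ext f
  exact P_eq ((P_spec U k f).const_smul c)

/-- the idempotence property -/
def Idem (U : Ultrafilter ℝ) : Prop := ∀ (f g : ℝ → ℂ) (L : ℂ), Tendsto f U (𝓝 L) →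
  (∀ s : ℝ, 0 ≤ s → Tendsto (fun t => f (s + t)) U (𝓝 (g s))) → Tendsto g U (𝓝 L)

theorem ev_nonneg {U : Ultrafilter ℝ} (hU : (U : Filter ℝ) ≤ atTop) (a : ℝ) :
    ∀ᶠ t in (U : Filter ℝ), a ≤ t := hU (eventually_ge_atTop a)

theorem P_P {U : Ultrafilter ℝ} (hU : (U : Filter ℝ) ≤ atTop) (hI : Idem U) (k : Y →L[ℂ] ℂ) :
    P U (P U k) = P U k := by
  ext f
  apply P_eq
  apply hI (fun t => k (YT t f)) _ _ (P_spec U k f)
  intro s hs
  refine (P_spec U k (YT s f)).congr' ?_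
  filter_upwards [ev_nonneg hU 0] with t ht
  rw [← YT_add ht hs, add_comm]

theorem lim_exp {U : Ultrafilter ℝ} (hI : Idem U) (x : ℝ) :
    Tendsto (fun s : ℝ => Complex.exp (-(Complex.I * (s : ℂ) * (x : ℂ)))) U (𝓝 1) := by
  set F : ℝ → ℂ := fun s : ℝ => Complex.exp (-(Complex.I * (s : ℂ) * (x : ℂ))) with hF
  have hn : ∀ s, ‖F s‖ = 1 := by
    intro s
    simp only [hF]
    rw [Complex.norm_exp]
    simp
  have h1 : Tendsto F U (𝓝 (ul U F)) := tendsto_ul U (C := 1) (fun s => (hn s).le)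
  have h2 := hI F (fun s => F s * ul U F) _ h1 (by
    intro s _
    have : (fun t => F (s + t)) = fun t => F s * F t := by
      funext t
      simp only [hF]
      rw [← Complex.exp_add]
      congr 1
      push_cast
      ring
    rw [this]
    exact h1.const_mul _)
  have h3 := h1.mul_const (ul U F)
  have h4 := tendsto_nhds_unique h2 h3
  have h5 : ‖ul U F‖ = 1 := by
    have := h1.norm
    simp only [hn] at this
    exact tendsto_nhds_unique this tendsto_const_nhds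
  have h6 : ul U F ≠ 0 := by
    intro h
    rw [h, norm_zero] at h5
    exact zero_ne_one h5
  have h7 : ul U F = 1 := by
    have : ul U F * 1 = ul U F * ul U F := by rw [mul_one]; exact h4
    exact (mul_left_cancel₀ h6 this).symm
  rwa [h7] at h1

theorem P_chi {U : Ultrafilter ℝ} (hU : (U : Filter ℝ) ≤ atTop) (hI : Idem U) (x : ℝ) :
    P U (chi (x : ℂ)) = chi (x : ℂ) := by
  ext f
  apply P_eq
  have h := (lim_exp hI x).mul_const (chi (x : ℂ) f)
  rw [one_mul] at h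
  refine h.congr' ?_
  filter_upwards [ev_nonneg hU 0] with t ht
  rw [chi_YT (by simp) ht]

/-- comparison of annihilators -/
def Sub (l k : Y →L[ℂ] ℂ) : Prop := ∀ f ∈ (ann l).I, f ∈ (ann k).I

theorem sub_of {l k : Y →L[ℂ] ℂ} (h : ∀ f ∈ (ann l).I, k f = 0) : Sub l k :=
  fun f hf s hs => h _ ((ann l).inv s hs f hf)

theorem Sub.trans {l k m : Y →L[ℂ] ℂ} (h1 : Sub l k) (h2 : Sub k m) : Sub l m :=
  fun f hf => h2 f (h1 f hf)

theorem Sub.add {l k m : Y →L[ℂ] ℂ} (h1 : Sub l k) (h2 : Sub l m) : Sub l (k + m) :=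
  sub_of fun f hf => by
    rw [add_apply, ann_self (h1 f hf), ann_self (h2 f hf), add_zero]

theorem Sub.sub {l k m : Y →L[ℂ] ℂ} (h1 : Sub l k) (h2 : Sub l m) : Sub l (k - m) :=
  sub_of fun f hf => by
    rw [sub_apply, ann_self (h1 f hf), ann_self (h2 f hf), sub_zero]

theorem Sub.refl (l : Y →L[ℂ] ℂ) : Sub l l := fun _ hf => hf

theorem sub_P {U : Ultrafilter ℝ} (hU : (U : Filter ℝ) ≤ atTop) (l : Y →L[ℂ] ℂ) :
    Sub l (P U l) := by
  apply sub_of
  intro f hf
  apply P_eq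
  refine Tendsto.congr' ?_ tendsto_const_nhds
  filter_upwards [ev_nonneg hU 0] with t ht
  exact (hf t ht).symm

theorem hull_mono {l k : Y →L[ℂ] ℂ} (h : Sub l k) : (ann k).hull ⊆ (ann l).hull :=
  fun _ hz => ⟨hz.1, fun f hf => hz.2 f (h f hf)⟩

theorem sub_chi {l : Y →L[ℂ] ℂ} {z : ℂ} (hz : z ∈ (ann l).hull) : Sub l (chi z) :=
  sub_of fun f hf => hz.2 f hf

theorem one_add_ne' {z : ℂ} (hz : z.im ≤ 0) : 1 + Complex.I * z ≠ 0 := by
  intro h
  have h' := congrArg Complex.re h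
  simp at h'
  linarith

theorem chi_rr_ne {z : ℂ} (hz : z.im ≤ 0) : chi z rr ≠ 0 := by
  rw [chi_rr hz]
  exact one_div_ne_zero (one_add_ne' hz)

theorem hull_zero : (ann (0 : Y →L[ℂ] ℂ)).hull = ∅ := by
  ext z
  simp only [Set.mem_empty_iff_false, iff_false]
  rintro ⟨hz, h⟩
  exact chi_rr_ne hz (h rr (fun s _ => rfl))

theorem mem_hull_smul_chi {z : ℂ} (hz : z.im ≤ 0) {c : ℂ} (hc : c ≠ 0) :
    z ∈ (ann (c • chi z)).hull := by
  refine ⟨hz, fun f hf => ?_⟩
  have h1 := ann_self hf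
  rw [smul_apply, smul_eq_mul] at h1
  exact (mul_eq_zero.mp h1).resolve_left hc

theorem hull_chi {x z : ℂ} (hx : x.im ≤ 0) (hz : z.im ≤ 0)
    (h : ∀ f ∈ (ann (chi x)).I, chi z f = 0) : z = x := by
  by_contra hne
  set f : Y := rr - ((2 + Complex.I * x) / (1 + Complex.I * x)) • ez (-(2 * Complex.I)) with hf
  have hc : ∀ w : ℂ, w.im ≤ 0 → chi w f =
      1 / (1 + Complex.I * w) - ((2 + Complex.I * x) / (1 + Complex.I * x)) *
        (1 / (2 + Complex.I * w)) := by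
    intro w hw
    rw [hf, map_sub, map_smul, chi_rr hw, chi_ez hw (by simp), smul_eq_mul]
    congr 3
    have := Complex.I_mul_I
    linear_combination (-2 : ℂ) * this
  have n1 := one_add_ne' hx
  have n2 := one_add_ne' hz
  have n3 : ∀ w : ℂ, w.im ≤ 0 → 2 + Complex.I * w ≠ 0 := by
    intro w hw h
    have h' := congrArg Complex.re h
    simp at h'
    linarith
  have h1 : f ∈ (ann (chi x)).I := by
    intro s hs
    rw [chi_YT hx hs, hc x hx]
    have := n3 x hx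
    field_simp
    ring
  have h2 := h f h1
  rw [hc z hz] at h2
  have n4 := n3 z hz
  apply hne
  have h3 : (1 + Complex.I * x) * (2 + Complex.I * z) - (2 + Complex.I * x) * (1 + Complex.I * z)
      = 0 := by
    have h4 : 1 / (1 + Complex.I * z) - ((2 + Complex.I * x) / (1 + Complex.I * x)) *
        (1 / (2 + Complex.I * z)) = ((1 + Complex.I * x) * (2 + Complex.I * z) -
        (2 + Complex.I * x) * (1 + Complex.I * z)) /
        ((1 + Complex.I * z) * (1 + Complex.I * x) * (2 + Complex.I * z)) := by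
      field_simp
    rw [h4, div_eq_zero_iff] at h2
    rcases h2 with h2 | h2
    · exact h2
    · exfalso
      exact (mul_ne_zero (mul_ne_zero n2 n1) n4) h2
  have h5 : Complex.I * (x - z) = 0 := by linear_combination h3
  have h6 := (mul_eq_zero.mp h5).resolve_left Complex.I_ne_zero
  exact (sub_eq_zero.mp h6).symm

/-- hull of a sum -/
theorem hull_add (hL : LapuStmt) {k m : Y →L[ℂ] ℂ} {z : ℂ} (hz : z ∈ (ann (k + m)).hull) :
    z ∈ (ann k).hull ∨ z ∈ (ann m).hull := by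
  by_contra hcon
  push Not at hcon
  obtain ⟨h1, h2⟩ := hcon
  have e1 : ∃ f ∈ (ann k).I, chi z f ≠ 0 := by
    by_contra hc
    push Not at hc
    exact h1 ⟨hz.1, hc⟩
  have e2 : ∃ f ∈ (ann m).I, chi z f ≠ 0 := by
    by_contra hc
    push Not at hc
    exact h2 ⟨hz.1, hc⟩
  obtain ⟨f1, hf1, n1⟩ := e1
  obtain ⟨f2, hf2, n2⟩ := e2
  have h3 : conv f1 f2 ∈ (ann (k + m)).I := by
    intro s hs
    rw [add_apply, (ann k).conv_mem_left hL hf1 f2 s hs, (ann m).conv_mem_right f1 hf2 s hs,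
      add_zero]
  have h4 := hz.2 _ h3
  rw [chi_conv hz.1] at h4
  exact (mul_ne_zero n1 n2) h4

theorem hull_sub (hL : LapuStmt) {k m : Y →L[ℂ] ℂ} {z : ℂ} (hz : z ∈ (ann (k - m)).hull) :
    z ∈ (ann k).hull ∨ z ∈ (ann m).hull := by
  rw [sub_eq_add_neg] at hz
  rcases hull_add hL hz with h | h
  · exact Or.inl h
  · right
    refine ⟨h.1, fun f hf => h.2 f ?_⟩
    intro s hs
    rw [neg_apply, hf s hs, neg_zero]

/-- simplicity in terms of functionals -/
theorem simple_lemma (hDu : DualStmt) (hBP : BipolarPosStmt) {φ : ℝ → ℝ} (hφ : IsWeight φ)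
    {C0 : ℝ} (hb : ∀ t, 0 ≤ t → φ t ≤ C0) {g : ℝ → ℂ} (hg : LInfPos φ g)
    (hs : SimpleSpec φ g) {l : Y →L[ℂ] ℂ} (hl : Rep l g) {k : Y →L[ℂ] ℂ} (hk : Sub l k) {z : ℂ}
    (hz : (ann k).hull = {z}) : ∃ c : ℂ, k = c • chi z := by
  obtain ⟨h, hr, hm, h0, C, hC⟩ := exists_function hDu k
  have h1 : LInfPos φ h := linfPos_of_bounded hφ hm h0 hC
  have h2 : h ∈ BPos φ g := (mem_BPos_iff hφ hb hBP hg h1 hl hr).mpr
    (fun f hf => ann_self (hk f hf))
  have h3 : SpecPos φ h = {z} := by rw [specPos_eq hφ hb hBP h1 hr, hz]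
  obtain ⟨c, z', hz', he⟩ := hs h h2 ⟨z, h3⟩
  have h4 : k = c • chi z' := by
    ext f
    rw [hr, smul_apply, smul_eq_mul, chi_rep hz', ← integral_const_mul]
    apply integral_congr_ae
    filter_upwards [he] with t ht
    rw [ht]
    ring
  have hc : c ≠ 0 := by
    intro hc
    have h4' : k = 0 := by
      ext f
      rw [h4, smul_apply, hc, zero_smul]
      rfl
    rw [h4', hull_zero] at hz
    exact Set.singleton_ne_empty z hz.symm
  have h5 : z' ∈ (ann k).hull := by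
    rw [h4]
    exact mem_hull_smul_chi hz' hc
  rw [hz] at h5
  rw [Set.mem_singleton_iff.mp h5] at h4
  exact ⟨c, h4⟩

end H15

end

end Pool.Agent.H78E
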