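import Pool.Agent.Helper15_E.Pos1

/-!
# MP_7d2497_an, module POS, part 2: the Riesz idempotent of an isolated point of the hull
-/

namespace Pool.Agent.H78E

open MeasureTheory Filter Topology Complex

noncomputable section

namespace H15

theorem ring_inverse_eq {A : Type} [Ring A] {a b : A} (h1 : a * b = 1) (h2 : b * a = 1) :
    Ring.inverse a = b :=
  Ring.inverse_unit ⟨a, b, h1, h2⟩

/-- change of variable -/
def zl (l : ℂ) : ℂ := Complex.I * (1 - 1 / l)

theorem one_add_zl (l : ℂ) : 1 + Complex.I * zl l = 1 / l := by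
  unfold zl
  have := Complex.I_mul_I
  linear_combination (1 - 1 / l) * this

theorem zl_inv {z : ℂ} : zl (1 / (1 + Complex.I * z)) = z := by
  unfold zl
  rw [one_div_one_div]
  have := Complex.I_mul_I
  linear_combination -z * this

theorem eq_of_zl_eq {l z : ℂ} (h : zl l = z) : l = 1 / (1 + Complex.I * z) := by
  rw [← h, one_add_zl, one_div_one_div]

theorem zl_diff {l : ℂ} (hl : l ≠ 0) : DifferentiableAt ℂ zl l := by
  unfold zl
  have : DifferentiableAt ℂ (fun l : ℂ => 1 / l) l := by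
    simp only [one_div]
    exact differentiableAt_inv hl
  exact (this.const_sub 1).const_mul _

theorem chi_En {z : ℂ} (hz : z.im ≤ 0) (f : Y) :
    chi z (YS.En 1 f) = 1 / (1 + Complex.I * z) * chi z f := by
  unfold CSemi.En
  rw [chi_pi hz _ (integrable_exp (by simp))]
  congr 1
  rw [← integral_exp_im (a := 1 + Complex.I * z) (by simp; linarith)]
  apply setIntegral_congr_fun measurableSet_Ioi
  intro t _
  simp only
  rw [← Complex.exp_add]
  congr 1
  ring

theorem lift_En (J : InvSub) {z : ℂ} (hz : z ∈ J.hull) (x : J.Q) :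
    J.lift (chi z) hz.2 (J.S.En 1 x) = 1 / (1 + Complex.I * z) * J.lift (chi z) hz.2 x := by
  obtain ⟨f, rfl⟩ := J.qm_surj x
  have h1 : J.S.En 1 (J.qm f) = J.qm (YS.En 1 f) := (J.qm_pi _ f).symm
  rw [h1, J.lift_qm, J.lift_qm, chi_En hz.1]

theorem T_En_comm (J : InvSub) {s : ℝ} (hs : 0 ≤ s) (x : J.Q) :
    J.S.T s (J.S.En 1 x) = J.S.En 1 (J.S.T s x) := by
  unfold CSemi.En
  exact J.S.pi_commute J.S (J.S.T s) (fun t ht x => by
    rw [← J.S.add s t hs ht, ← J.S.add t s ht hs, add_comm]) _ x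

theorem alg_sub (J : InvSub) {l : ℂ} (hl : l ≠ 0) :
    algebraMap ℂ (J.Q →L[ℂ] J.Q) l - J.S.En 1 = l • J.S.D (zl l) := by
  unfold CSemi.D
  rw [one_add_zl, smul_sub, smul_smul, mul_one_div_cancel hl, one_smul,
    Algebra.algebraMap_eq_smul_one]

theorem isUnit_sub (J : InvSub) {l : ℂ} (hl : l ≠ 0) (hu : IsUnit (J.S.D (zl l))) :
    IsUnit (algebraMap ℂ (J.Q →L[ℂ] J.Q) l - J.S.En 1) := by
  rw [alg_sub J hl]
  refine ⟨⟨l • J.S.D (zl l), l⁻¹ • Ring.inverse (J.S.D (zl l)), ?_, ?_⟩, rfl⟩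
  · rw [smul_mul_smul_comm, mul_inv_cancel₀ hl, one_smul, Ring.mul_inverse_cancel _ hu]
  · rw [smul_mul_smul_comm, inv_mul_cancel₀ hl, one_smul, Ring.inverse_mul_cancel _ hu]

theorem inverse_sub (J : InvSub) {l : ℂ} (hl : l ≠ 0) (hu : IsUnit (J.S.D (zl l))) :
    Ring.inverse (algebraMap ℂ (J.Q →L[ℂ] J.Q) l - J.S.En 1) =
      l⁻¹ • Ring.inverse (J.S.D (zl l)) := by
  rw [alg_sub J hl]
  apply ring_inverse_eq
  · rw [smul_mul_smul_comm, mul_inv_cancel₀ hl, one_smul, Ring.mul_inverse_cancel _ hu]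
  · rw [smul_mul_smul_comm, inv_mul_cancel₀ hl, one_smul, Ring.inverse_mul_cancel _ hu]

/-- the Riesz idempotent at an isolated point of the hull -/
theorem riesz (hRi : RieszStmt) (hL : LapuStmt) (hR : ResidStmt) (hA : AlgStmt) (hD : DensStmt)
    (J : InvSub) {x0 : ℝ} {δ : ℝ} (hδ : 0 < δ) (hx : (x0 : ℂ) ∈ J.hull)
    (hiso : ∀ z ∈ J.hull, ‖z - (x0 : ℂ)‖ < δ → z = (x0 : ℂ)) :
    ∃ e : J.Q →L[ℂ] J.Q, (∀ x, e (e x) = e x) ∧
      (∀ s, 0 ≤ s → ∀ x, e (J.S.T s x) = J.S.T s (e x)) ∧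
      (∀ f f' : Y, J.qm f' = e (J.qm f) → chi (x0 : ℂ) f' = chi (x0 : ℂ) f) ∧
      (∀ z ∈ J.hull, z ≠ (x0 : ℂ) → ∀ f f' : Y, J.qm f' = e (J.qm f) → chi z f' = 0) ∧
      (∀ (θ : J.Q →L[ℂ] ℂ) (Ψ : ℂ → ℂ),
        (∀ z : ℂ, ‖z - (x0 : ℂ)‖ < δ → DifferentiableAt ℂ Ψ z) →
        (∀ z : ℂ, ‖z - (x0 : ℂ)‖ < δ → z ≠ (x0 : ℂ) → θ (J.q z) = Ψ z) →
        θ (e (J.qm rr)) = 0) := by
  set l0 : ℂ := 1 / (1 + Complex.I * (x0 : ℂ)) with hl0
  have hx0 : 1 + Complex.I * (x0 : ℂ) ≠ 0 := one_add_ne' (by simp)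
  have hl0ne : l0 ≠ 0 := one_div_ne_zero hx0
  have hzl0 : zl l0 = (x0 : ℂ) := zl_inv
  have hnhds : {l : ℂ | l ≠ 0 ∧ ‖zl l - (x0 : ℂ)‖ < δ} ∈ 𝓝 l0 := by
    have h1 : ContinuousAt zl l0 := (zl_diff hl0ne).continuousAt
    have h2 : ∀ᶠ l in 𝓝 l0, ‖zl l - (x0 : ℂ)‖ < δ := by
      have h3 : ContinuousAt (fun l => ‖zl l - (x0 : ℂ)‖) l0 := (h1.sub continuousAt_const).norm
      apply h3.eventually_lt_const
      change ‖zl l0 - (x0 : ℂ)‖ < δ
      rw [hzl0, sub_self, norm_zero]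
      exact hδ
    filter_upwards [h2, isOpen_ne.mem_nhds hl0ne] with l h3 h4
    exact ⟨h4, h3⟩
  obtain ⟨ρ, hρ, hball⟩ := Metric.nhds_basis_closedBall.mem_iff.mp hnhds
  have hin : ∀ l : ℂ, ‖l - l0‖ ≤ ρ → l ≠ 0 ∧ ‖zl l - (x0 : ℂ)‖ < δ := by
    intro l hl
    exact hball (by rw [Metric.mem_closedBall, dist_eq_norm]; exact hl)
  have hzne : ∀ l : ℂ, l ≠ l0 → zl l ≠ (x0 : ℂ) := by
    intro l hl h
    exact hl (eq_of_zl_eq h)
  have hDu : ∀ l : ℂ, l ≠ l0 → ‖l - l0‖ ≤ ρ → IsUnit (J.S.D (zl l)) := by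
    intro l h1 h2
    apply J.D_unit hL hR hA hD
    intro h3
    exact hzne l h1 (hiso _ h3 (hin l h2).2)
  obtain ⟨e, he1, he2, he3⟩ := hRi (J.Q →L[ℂ] J.Q) (J.S.En 1) l0 ρ hρ
    (fun l h1 h2 => isUnit_sub J (hin l h2).1 (hDu l h1 h2))
  have hsph : ∀ l ∈ Metric.sphere l0 ρ, l ≠ l0 ∧ ‖l - l0‖ ≤ ρ := by
    intro l hl
    rw [Metric.mem_sphere, dist_eq_norm] at hl
    refine ⟨?_, hl.le⟩
    intro h
    rw [h, sub_self, norm_zero] at hl
    exact hρ.ne hl
  -- characters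
  have hchar : ∀ (z : ℂ) (hz : z ∈ J.hull) (x : J.Q), J.lift (chi z) hz.2 (e x) =
      (2 * (Real.pi : ℂ) * Complex.I)⁻¹ * (∮ l in C(l0, ρ), (l - 1 / (1 + Complex.I * z))⁻¹) *
        J.lift (chi z) hz.2 x := by
    intro z hz x
    have h1 := he3 ((J.lift (chi z) hz.2).comp (ContinuousLinearMap.apply ℂ J.Q x))
    have h2 : ((J.lift (chi z) hz.2).comp (ContinuousLinearMap.apply ℂ J.Q x)) e =
        J.lift (chi z) hz.2 (e x) := rfl
    rw [h2] at h1
    have h3 : (∮ l in C(l0, ρ), ((J.lift (chi z) hz.2).comp (ContinuousLinearMap.apply ℂ J.Q x))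
        (Ring.inverse (algebraMap ℂ (J.Q →L[ℂ] J.Q) l - J.S.En 1))) =
        ∮ l in C(l0, ρ), (J.lift (chi z) hz.2 x) • (l - 1 / (1 + Complex.I * z))⁻¹ := by
      apply circleIntegral.integral_congr hρ.le
      intro l hl
      obtain ⟨h4, h5⟩ := hsph l hl
      simp only
      set V := Ring.inverse (algebraMap ℂ (J.Q →L[ℂ] J.Q) l - J.S.En 1) with hV
      have h6 : (algebraMap ℂ (J.Q →L[ℂ] J.Q) l - J.S.En 1) * V = 1 :=
        Ring.mul_inverse_cancel _ (isUnit_sub J (hin l h5).1 (hDu l h4 h5))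
      have h7 : l • V x - J.S.En 1 (V x) = x := by
        have := congrArg (fun A : J.Q →L[ℂ] J.Q => A x) h6
        rw [Algebra.algebraMap_eq_smul_one] at this
        exact this
      have h8 : J.lift (chi z) hz.2 x =
          (l - 1 / (1 + Complex.I * z)) * J.lift (chi z) hz.2 (V x) := by
        conv_lhs => rw [← h7]
        rw [map_sub, map_smul, lift_En J hz, smul_eq_mul]
        ring
      have h9 : l - 1 / (1 + Complex.I * z) ≠ 0 := by
        intro h
        have h10 : l = 1 / (1 + Complex.I * z) := sub_eq_zero.mp h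
        have h11 : zl l = z := by rw [h10]; exact zl_inv
        have h12 := hiso z hz (by rw [← h11]; exact (hin l h5).2)
        exact hzne l h4 (h11.trans h12)
      change J.lift (chi z) hz.2 (V x) = _
      rw [h8, smul_eq_mul]
      field_simp
    rw [h1, h3, circleIntegral.integral_smul, smul_eq_mul]
    ring
  refine ⟨e, ?_, ?_, ?_, ?_, ?_⟩
  · intro x
    have := congrArg (fun A : J.Q →L[ℂ] J.Q => A x) he1
    exact this
  · intro s hs x
    have hc : Commute (J.S.En 1) (J.S.T s) := by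
      ext x
      exact (T_En_comm J hs x).symm
    have := congrArg (fun A : J.Q →L[ℂ] J.Q => A x) (he2 _ hc)
    exact this
  · intro f f' hf
    have h1 := hchar (x0 : ℂ) hx (J.qm f)
    rw [← hf, J.lift_qm, J.lift_qm, ← hl0, circleIntegral.integral_sub_center_inv _ hρ.ne'] at h1
    rw [h1, inv_mul_cancel₀ (by
      simp [Real.pi_ne_zero]), one_mul]
  · intro z hz hzx f f' hf
    have h1 := hchar z hz (J.qm f)
    rw [← hf, J.lift_qm] at h1
    rw [h1]
    have h2 : (∮ l in C(l0, ρ), (l - 1 / (1 + Complex.I * z))⁻¹) = 0 := by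
      have hne : ∀ l ∈ Metric.closedBall l0 ρ, l - 1 / (1 + Complex.I * z) ≠ 0 := by
        intro l hl h
        rw [Metric.mem_closedBall, dist_eq_norm] at hl
        have h10 : l = 1 / (1 + Complex.I * z) := sub_eq_zero.mp h
        have h11 : zl l = z := by rw [h10]; exact zl_inv
        exact hzx (hiso z hz (by rw [← h11]; exact (hin l hl).2))
      have hdiff : ∀ l ∈ Metric.closedBall l0 ρ,
          DifferentiableAt ℂ (fun l : ℂ => (l - 1 / (1 + Complex.I * z))⁻¹) l := by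
        intro l hl
        exact (differentiableAt_id.sub_const _).inv (hne l hl)
      apply Complex.circleIntegral_eq_zero_of_differentiable_on_off_countable hρ.le
        Set.countable_empty
      · intro l hl
        exact (hdiff l hl).continuousAt.continuousWithinAt
      · intro l hl
        exact hdiff l (Metric.ball_subset_closedBall hl.1)
    rw [h2, mul_zero, zero_mul]
  · intro θ Ψ h1 h2
    have h3 := he3 (θ.comp (ContinuousLinearMap.apply ℂ J.Q (J.qm rr)))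
    have h4 : (θ.comp (ContinuousLinearMap.apply ℂ J.Q (J.qm rr))) e = θ (e (J.qm rr)) := rfl
    rw [h4] at h3
    rw [h3]
    have h5 : (∮ l in C(l0, ρ), (θ.comp (ContinuousLinearMap.apply ℂ J.Q (J.qm rr)))
        (Ring.inverse (algebraMap ℂ (J.Q →L[ℂ] J.Q) l - J.S.En 1))) =
        ∮ l in C(l0, ρ), l⁻¹ * Ψ (zl l) := by
      apply circleIntegral.integral_congr hρ.le
      intro l hl
      obtain ⟨h6, h7⟩ := hsph l hl
      simp only
      rw [inverse_sub J (hin l h7).1 (hDu l h6 h7), ← h2 (zl l) (hin l h7).2 (hzne l h6)]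
      change θ (l⁻¹ • Ring.inverse (J.S.D (zl l)) (J.qm rr)) = _
      rw [map_smul, smul_eq_mul]
      rfl
    rw [h5]
    have hdiff : ∀ l ∈ Metric.closedBall l0 ρ, DifferentiableAt ℂ (fun l : ℂ => l⁻¹ * Ψ (zl l)) l := by
      intro l hl
      rw [Metric.mem_closedBall, dist_eq_norm] at hl
      obtain ⟨h8, h9⟩ := hin l hl
      exact (differentiableAt_inv h8).mul ((h1 (zl l) h9).comp l (zl_diff h8))
    rw [Complex.circleIntegral_eq_zero_of_differentiable_on_off_countable hρ.le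
      Set.countable_empty, mul_zero]
    · intro l hl
      exact (hdiff l hl).continuousAt.continuousWithinAt
    · intro l hl
      exact hdiff l (Metric.ball_subset_closedBall hl.1)

end H15

end

end Pool.Agent.H78E
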