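import Pool.Agent.Helper15_E.Pos2

/-!
# MP_7d2497_an, module POS, part 3: isolated points, closedness of the spectra
-/

namespace Pool.Agent.H78E

open MeasureTheory Filter Topology Complex

noncomputable section

namespace H15

theorem not_countable_bool : ¬ Countable (ℕ → Bool) := by
  intro h
  obtain ⟨f, hf⟩ := exists_injective_nat (ℕ → Bool)
  classical
  refine Function.cantor_injective (fun s : Set ℕ => f (fun n => decide (n ∈ s))) ?_
  intro s t hst
  have h1 := hf hst
  ext n
  have h2 := congrFun h1 n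
  simpa using h2

/-- a nonempty subset of a countable closed set has an isolated point -/
theorem exists_isolated {C W : Set ℝ} (hC : IsClosed C) (hc : C.Countable) (hW : W ⊆ C)
    (hne : W.Nonempty) : ∃ x ∈ W, ∃ δ > 0, ∀ y ∈ W, |y - x| < δ → y = x := by
  by_contra hcon
  push Not at hcon
  have hpre : Preperfect W := by
    intro x hx
    rw [accPt_iff_nhds]
    intro u hu
    obtain ⟨δ, hδ, hb⟩ := Metric.mem_nhds_iff.mp hu
    obtain ⟨y, hy, h1, h2⟩ := hcon x hx δ hδ
    exact ⟨y, ⟨hb (by rw [Metric.mem_ball, Real.dist_eq]; exact h1), hy⟩, h2⟩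
  obtain ⟨f, hf, _, hinj⟩ := hpre.perfect_closure.exists_nat_bool_injection hne.closure
  have h1 : (Set.range f).Countable := hc.mono (hf.trans (closure_minimal hW hC))
  apply not_countable_bool
  have h2 : Countable (Set.range f) := h1.to_subtype
  exact (Equiv.ofInjective f hinj).countable_iff.mpr h2

theorem norm_expR (x t : ℝ) : ‖expR x t‖ = 1 := by
  unfold expR
  rw [Complex.norm_exp]
  simp

theorem expR_cont (x : ℝ) : Continuous (expR x) := by
  unfold expR
  fun_prop

section
variable {φ : ℝ → ℝ} (hφ : IsWeight φ)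

include hφ in
theorem linf_of_bounded {h : ℝ → ℂ} (hm : AEStronglyMeasurable h volume) {C : ℝ}
    (hC : ∀ t, ‖h t‖ ≤ C) : LInf φ h := by
  refine ⟨hm, C, Eventually.of_forall fun t => ?_⟩
  have hC0 : 0 ≤ C := (norm_nonneg _).trans (hC 0)
  calc ‖h t‖ ≤ C * 1 := by rw [mul_one]; exact hC t
    _ ≤ C * φ t := mul_le_mul_of_nonneg_left (hφ.one_le t) hC0

include hφ in
theorem linf_expR (x : ℝ) : LInf φ (expR x) :=
  linf_of_bounded hφ (expR_cont x).aestronglyMeasurable (fun t => (norm_expR x t).le)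

include hφ in
theorem integrable_of_L1 {f : ℝ → ℂ} (hf : L1 φ f) : Integrable f volume := by
  refine hf.2.mono' hf.1 (Eventually.of_forall fun t => ?_)
  calc ‖f t‖ = 1 * ‖f t‖ := (one_mul _).symm
    _ ≤ φ t * ‖f t‖ := mul_le_mul_of_nonneg_right (hφ.one_le t) (norm_nonneg _)

include hφ in
theorem mem_Spec_iff (hBP : BipolarStmt) {G : ℝ → ℂ} (hG : LInf φ G) {x : ℝ} :
    x ∈ Spec φ G ↔ ∀ f : ℝ → ℂ, L1 φ f → (∀ s : ℝ, ∫ t : ℝ, f t * G (t + s) = 0) →
      ∫ t : ℝ, f t * expR x t = 0 :=
  hBP φ hφ G (expR x) hG (linf_expR hφ x)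

include hφ in
theorem isClosed_Spec (hBP : BipolarStmt) {G : ℝ → ℂ} (hG : LInf φ G) :
    IsClosed (Spec φ G) := by
  have h1 : Spec φ G = ⋂ (f : ℝ → ℂ) (_ : L1 φ f) (_ : ∀ s : ℝ, ∫ t : ℝ, f t * G (t + s) = 0),
      {x : ℝ | ∫ t : ℝ, f t * expR x t = 0} := by
    ext x
    simp only [Set.mem_iInter]
    exact mem_Spec_iff hφ hBP hG
  rw [h1]
  refine isClosed_iInter fun f => isClosed_iInter fun hf => isClosed_iInter fun _ => ?_
  apply isClosed_eq _ continuous_const
  have hi := integrable_of_L1 hφ hf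
  refine continuous_of_dominated (bound := fun t => ‖f t‖) ?_ ?_ hi.norm ?_
  · intro x
    exact hi.aestronglyMeasurable.mul (expR_cont x).aestronglyMeasurable
  · intro x
    refine Eventually.of_forall fun t => ?_
    rw [norm_mul, norm_expR, mul_one]
  · refine Eventually.of_forall fun t => ?_
    unfold expR
    fun_prop

include hφ in
theorem Spec_shift (hBP : BipolarStmt) {G : ℝ → ℂ} (hG : LInf φ G) {s : ℝ}
    (hGs : LInf φ (fun t => G (t + s))) : Spec φ (fun t => G (t + s)) = Spec φ G := by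
  ext x
  rw [mem_Spec_iff hφ hBP hG, mem_Spec_iff hφ hBP hGs]
  refine forall_congr' fun f => forall_congr' fun _ => ?_
  have : (∀ u : ℝ, ∫ t : ℝ, f t * G (t + u + s) = 0) ↔ ∀ u : ℝ, ∫ t : ℝ, f t * G (t + u) = 0 := by
    constructor
    · intro h u
      have := h (u - s)
      simpa [add_assoc] using this
    · intro h u
      have := h (u + s)
      simpa [add_assoc] using this
  rw [this]

end

theorem isClosed_hull_real (l : Y →L[ℂ] ℂ) : IsClosed {x : ℝ | (x : ℂ) ∈ (ann l).hull} := by
  have h1 : {x : ℝ | (x : ℂ) ∈ (ann l).hull} = ⋂ (f : Y) (_ : f ∈ (ann l).I),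
      {x : ℝ | chi (x : ℂ) f = 0} := by
    ext x
    simp only [Set.mem_iInter]
    constructor
    · intro h f hf
      exact h.2 f hf
    · intro h
      exact ⟨by simp, fun f hf => h f hf⟩
  rw [h1]
  refine isClosed_iInter fun f => isClosed_iInter fun _ => ?_
  apply isClosed_eq _ continuous_const
  have h2 : (fun x : ℝ => chi (x : ℂ) f) = fun x : ℝ =>
      ∫ t : ℝ, ((f : X) : ℝ → ℂ) t * expPos (x : ℂ) t := by
    funext x
    exact chi_rep (by simp) f
  rw [h2]
  refine continuous_of_dominated (bound := fun t => ‖((f : X) : ℝ → ℂ) t‖) ?_ ?_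
    (Y_integrable f).norm ?_
  · intro x
    exact (Y_integrable f).aestronglyMeasurable.mul (expPos_measurable _).aestronglyMeasurable
  · intro x
    refine Eventually.of_forall fun t => ?_
    rw [norm_mul]
    exact mul_le_of_le_one_right (norm_nonneg _) (norm_expPos (by simp) t)
  · refine Eventually.of_forall fun t => ?_
    unfold expPos
    by_cases ht : 0 ≤ t
    · simp only [if_pos ht]
      fun_prop
    · simp only [if_neg ht]
      fun_prop

/-- the case `l - P l ≠ 0` is impossible -/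
theorem mean_eq (hDu : DualStmt) (hBP : BipolarPosStmt) (hRi : RieszStmt) (hL : LapuStmt)
    (hR : ResidStmt) (hA : AlgStmt) (hD : DensStmt) {φ : ℝ → ℝ} (hφ : IsWeight φ)
    {C0 : ℝ} (hb : ∀ t, 0 ≤ t → φ t ≤ C0) {g : ℝ → ℂ} (hg : LInfPos φ g)
    (hs : SimpleSpec φ g) {l : Y →L[ℂ] ℂ} (hl : Rep l g) {C : Set ℝ} (hC : IsClosed C)
    (hCc : C.Countable) (hhull : ∀ z : ℂ, z ∈ (ann l).hull → ∃ x ∈ C, z = (x : ℂ))
    (hne : (ann l).hull.Nonempty) {U : Ultrafilter ℝ} (hU : (U : Filter ℝ) ≤ atTop)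
    (hI : Idem U) : l = P U l := by
  by_contra hneq
  set m : Y →L[ℂ] ℂ := l - P U l with hm
  have hm0 : m ≠ 0 := sub_ne_zero.mpr hneq
  have hPm : P U m = 0 := by rw [hm, P_sub, P_P hU hI, sub_self]
  have hlm : Sub l m := (Sub.refl l).sub (sub_P hU l)
  have hsimple : ∀ k : Y →L[ℂ] ℂ, Sub l k → ∀ z : ℂ, (ann k).hull = {z} →
      ∃ c : ℂ, k = c • chi z := fun k hk z hz => simple_lemma hDu hBP hφ hb hg hs hl hk hz
  -- the hull of `m` is nonempty
  have hmne : (ann m).hull.Nonempty := by
    by_contra hemp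
    rw [Set.not_nonempty_iff_eq_empty] at hemp
    obtain ⟨z, hz⟩ := hne
    obtain ⟨x, _, rfl⟩ := hhull z hz
    set k : Y →L[ℂ] ℂ := chi (x : ℂ) + m with hk
    have hlk : Sub l k := (sub_chi hz).add hlm
    have hkhull : (ann k).hull = {(x : ℂ)} := by
      apply Set.Subset.antisymm
      · intro w hw
        rcases hull_add hL hw with h | h
        · exact hull_chi (by simp) h.1 h.2
        · rw [hemp] at h
          exact absurd h (Set.notMem_empty _)
      · rintro w rfl
        have h1 : (x : ℂ) ∈ (ann (k - m)).hull := by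
          have : k - m = (1 : ℂ) • chi (x : ℂ) := by
            ext f
            rw [sub_apply, hk, add_apply, smul_apply, one_smul, add_sub_cancel_right]
          rw [this]
          exact mem_hull_smul_chi (by simp) one_ne_zero
        rcases hull_sub hL h1 with h | h
        · exact h
        · rw [hemp] at h
          exact absurd h (Set.notMem_empty _)
    obtain ⟨c, hc⟩ := hsimple k hlk _ hkhull
    have hm' : m = (c - 1) • chi (x : ℂ) := by
      ext f
      have h1 := congrArg (fun A : Y →L[ℂ] ℂ => A f) hc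
      simp only [hk, add_apply, smul_apply, smul_eq_mul] at h1
      rw [smul_apply, smul_eq_mul]
      linear_combination h1
    apply hm0
    have h2 := hPm
    rw [hm', P_smul, P_chi hU hI, ← hm'] at h2
    exact h2
  -- an isolated point
  set W : Set ℝ := {x : ℝ | (x : ℂ) ∈ (ann m).hull} with hW
  have hmhull : ∀ z ∈ (ann m).hull, ∃ x ∈ C, z = (x : ℂ) := fun z hz => hhull z (hull_mono hlm hz)
  have hWC : W ⊆ C := by
    intro x hx
    obtain ⟨y, hy, hxy⟩ := hmhull _ hx
    rwa [Complex.ofReal_injective hxy]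
  have hWne : W.Nonempty := by
    obtain ⟨z, hz⟩ := hmne
    obtain ⟨x, _, rfl⟩ := hmhull z hz
    exact ⟨x, hz⟩
  obtain ⟨x0, hx0, δ, hδ, hiso⟩ := exists_isolated hC hCc hWC hWne
  have hiso' : ∀ z ∈ (ann m).hull, ‖z - (x0 : ℂ)‖ < δ → z = (x0 : ℂ) := by
    intro z hz h1
    obtain ⟨x, _, rfl⟩ := hmhull z hz
    rw [hiso x hz (by rwa [← Complex.ofReal_sub, Complex.norm_real, Real.norm_eq_abs] at h1)]
  obtain ⟨e, he0, he1, he2, he3, _⟩ := riesz hRi hL hR hA hD (ann m) hδ hx0 hiso'
  set k : Y →L[ℂ] ℂ := (kq m).comp (e.comp (ann m).qm) with hk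
  have hkv : ∀ f f' : Y, (ann m).qm f' = e ((ann m).qm f) → ∀ s, 0 ≤ s →
      k (YT s f) = m (YT s f') := by
    intro f f' hf s hs
    change kq m (e ((ann m).qm (YT s f))) = m (YT s f')
    rw [(ann m).qm_T hs, he1 s hs, ← hf, ← (ann m).qm_T hs, kq_qm]
  have hex : ∀ f : Y, ∃ f' : Y, (ann m).qm f' = e ((ann m).qm f) := fun f => (ann m).qm_surj _
  have hmk : Sub m k := by
    apply sub_of
    intro f hf
    change kq m (e ((ann m).qm f)) = 0
    rw [(ann m).qm_eq_zero.mpr hf, map_zero, map_zero]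
  have hkhull : (ann k).hull = {(x0 : ℂ)} := by
    apply Set.Subset.antisymm
    · intro z hz
      rw [Set.mem_singleton_iff]
      by_contra hzx
      have hzm := hull_mono hmk hz
      obtain ⟨r', hr'⟩ := hex rr
      have h1 : chi z r' = 0 := he3 z hzm hzx rr r' hr'
      have h3 : rr - r' ∈ (ann k).I := by
        intro s hs
        have h4 : (ann m).qm 0 = e ((ann m).qm (rr - r')) := by
          rw [map_sub, map_sub, hr', he0, sub_self, map_zero]
        rw [hkv (rr - r') 0 h4 s hs, map_zero, map_zero]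
      have h4 := hz.2 _ h3
      rw [map_sub, h1, sub_zero] at h4
      exact chi_rr_ne hz.1 h4
    · rintro z rfl
      refine ⟨by simp, fun f hf => ?_⟩
      obtain ⟨f', hf'⟩ := hex f
      rw [← he2 f f' hf']
      have h1 : f' ∈ (ann m).I := by
        intro s hs
        rw [← hkv f f' hf' s hs]
        exact hf s hs
      exact hx0.2 f' h1
  obtain ⟨c, hc⟩ := hsimple k (hlm.trans hmk) _ hkhull
  have hPk : P U k = 0 := by
    ext f
    obtain ⟨f', hf'⟩ := hex f
    apply P_eq
    have h1 := P_spec U m f'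
    rw [hPm] at h1
    refine h1.congr' ?_
    filter_upwards [ev_nonneg hU 0] with t ht
    exact (hkv f f' hf' t ht).symm
  have hk0 : k = 0 := by
    rw [hc, P_smul, P_chi hU hI, ← hc] at hPk
    exact hPk
  rw [hk0, hull_zero] at hkhull
  exact Set.singleton_ne_empty _ hkhull.symm

end H15

end

end Pool.Agent.H78E
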